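import Pool.Agent.Helper33.TR.Rot

/-!
The arithmetic and the lower bound.
-/

set_option autoImplicit false
set_option linter.unusedSectionVars false
set_option linter.unusedVariables false

namespace Pool.Agent.Helper33.TR

open Finset

/-- the arithmetic, large `m` -/
lemma arith {η θ ε κ q δ : ℝ} (h0 : 0 ≤ η) (h1 : η ≤ 1 / 100) (hε0 : 0 ≤ ε) (hεθ : ε ≤ θ)
    (hθ : θ ≤ 1) (H2 : 1 ≤ θ + ε + 2 * η) (H4 : 2 * κ ≤ 3 * ε + 15 * η)
    (H5 : 2 * κ ≤ 1 + 5 * η) (H6 : 2 * κ + q ≤ 3 * ε + 30 * η) (H7 : (1 - θ) ^ 2 ≤ q)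
    (H8 : (∃ u : ℝ, 0 ≤ u ∧ u ≤ 1 / 2 ∧ u * θ + (1 / 2 - u) * ε - u * (1 / 2 - u) ≤ δ) ∨
      1 / 2 * θ ≤ δ) : κ ≤ 3 * δ + 15 * η := by
  rcases H8 with ⟨u, hu0, hu1, hu⟩ | hδ
  · by_cases hh : ε + (1 - θ) - 1 / 2 ≤ 0
    · have : 0 ≤ u * (1 / 2 - ε - (1 - θ)) := mul_nonneg hu0 (by linarith)
      nlinarith [sq_nonneg u]
    · push Not at hh
      set z := 1 - θ with hz
      set t := ε + z - 1 / 2 with ht
      have hz0 : 0 ≤ z := by rw [hz]; linarith
      have hδ : ε / 2 - t ^ 2 / 4 ≤ δ := by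
        have e : u * θ + (1 / 2 - u) * ε - u * (1 / 2 - u) = ε / 2 - t ^ 2 / 4 + (u - t / 2) ^ 2 := by
          rw [ht, hz]; ring
        rw [e] at hu
        nlinarith [sq_nonneg (u - t / 2)]
      by_cases hq : 3 / 4 * t ^ 2 ≤ 1 / 2 * z ^ 2
      · linarith
      · push Not at hq
        have ht1 : 4 / 5 * z < t := by
          by_contra hcon
          push Not at hcon
          have : t ^ 2 ≤ (4 / 5 * z) ^ 2 := by
            apply pow_le_pow_left₀ hh.le hcon
          nlinarith [sq_nonneg z]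
        have hz1 : z ≤ ε + 2 * η := by rw [hz]; linarith
        have hz2 : z ≤ 1 - ε := by rw [hz]; linarith
        have hε : 398 / 1000 < ε := by
          rw [ht] at ht1
          linarith
        have goal : 1 / 2 ≤ 3 / 2 * ε - 3 / 4 * t ^ 2 := by
          by_cases hh2 : ε ≤ 1 / 2
          · have t1 : t ≤ 2 * ε - 48 / 100 := by rw [ht]; linarith
            have t2 : t ^ 2 ≤ (2 * ε - 48 / 100) ^ 2 := pow_le_pow_left₀ hh.le t1 2
            nlinarith [mul_nonneg (sub_nonneg.mpr hε.le) (sub_nonneg.mpr hh2)]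
          · push Not at hh2
            have t1 : t ≤ 1 / 2 := by rw [ht]; linarith
            have t2 : t ^ 2 ≤ (1 / 2) ^ 2 := pow_le_pow_left₀ hh.le t1 2
            nlinarith
        linarith
  · linarith

variable {V : Type} [Fintype V] [DecidableEq V]

section

variable {G : Finset (Finset V)} {m : ℕ} {cl : V → Fin 3} {T : Finset (Equiv.Perm V)}
  {g : Equiv.Perm V} (h : Fam G m cl T) (r : Rot G cl g)

include h

lemma B_nonneg (s : Fin 3) : 0 ≤ B G cl s := Finset.sum_nonneg fun i _ => S_nonneg _ _ _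

lemma B_le (s : Fin 3) : B G cl s ≤ 3 * (m : ℝ) ^ 3 := by
  unfold B
  have : ∀ i ∈ (univ : Finset (Fin 3)), S G cl i i (i + s) ≤ (m : ℝ) ^ 3 := by
    intro i _
    rw [S_eq_d]
    calc _ ≤ ∑ x ∈ c cl i, ∑ x' ∈ c cl i, (m : ℝ) :=
          Finset.sum_le_sum fun x _ => Finset.sum_le_sum fun x' _ => d_le h _ _ _
      _ = (m : ℝ) ^ 3 := by rw [sum_const_c h, sum_const_c h]; ring
  have key := Finset.sum_le_sum this
  simp only [Finset.sum_const, Finset.card_univ, Fintype.card_fin, nsmul_eq_mul] at key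
  push_cast at key
  exact key

lemma D_nonneg (s : Fin 3) : 0 ≤ D G cl s :=
  Finset.sum_nonneg fun i _ => Finset.sum_nonneg fun x _ => Finset.sum_nonneg fun x' _ =>
    mul_nonneg (d_nonneg _ _ _) (d_nonneg _ _ _)

include r

/-- the key estimate for the missing inner triples, in the favourable direction -/
lemma key_s {s : Fin 3} (hs : s ≠ 0) (hm : 100 ≤ m) (hB : B G cl (-s) ≤ B G cl s) :
    (m : ℝ) * K G cl m ≤ 3 * D G cl s + 45 * (m : ℝ) ^ 3 := by
  have hne : Nonempty V := by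
    have : 0 < (c cl 0).card := by rw [card_c h]; omega
    obtain ⟨x, -⟩ := Finset.card_pos.mp this
    exact ⟨x⟩
  have hm' : (100 : ℝ) ≤ m := by exact_mod_cast hm
  have m0 : (0 : ℝ) < m := by linarith
  have hs' : -s ≠ 0 := neg_ne_zero.mpr hs
  have h2 := H2 h hne hs
  have h4 := H4 h hs'
  have h5 := H5 h
  have h6 := H6 h hne hs'
  rw [neg_neg] at h6
  have h7 := H7 h s
  have h8 := H8 h r hs (by omega)
  have b0 := B_nonneg h (-s)
  have b1 := B_le h s
  have b2 := B_le h (-s)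
  set X := B G cl s
  set Y := B G cl (-s)
  set k := K G cl m
  set q := Q G cl m s
  set dd := D G cl s
  have main := arith (η := 1 / m) (θ := X / (3 * (m : ℝ) ^ 3)) (ε := Y / (3 * (m : ℝ) ^ 3))
    (κ := k / (3 * (m : ℝ) ^ 3)) (q := q / (3 * (m : ℝ) ^ 4)) (δ := dd / (3 * (m : ℝ) ^ 4))
    (by positivity) (by rw [div_le_div_iff₀ m0 (by norm_num)]; linarith)
    (by positivity) (by gcongr)
    (by rw [div_le_one (by positivity)]; exact b1)
    (by
      have e : X / (3 * (m : ℝ) ^ 3) + Y / (3 * (m : ℝ) ^ 3) + 2 * (1 / m) =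
        (X + Y + 6 * (m : ℝ) ^ 2) / (3 * (m : ℝ) ^ 3) := by field_simp; ring
      rw [e, le_div_iff₀ (by positivity)]
      linarith)
    (by
      have e : 3 * (Y / (3 * (m : ℝ) ^ 3)) + 15 * (1 / m) =
        (3 * Y + 45 * (m : ℝ) ^ 2) / (3 * (m : ℝ) ^ 3) := by field_simp; ring
      rw [e, ← mul_div_assoc, div_le_div_iff_of_pos_right (by positivity)]
      have : (m : ℝ) * (2 * k) ≤ m * (3 * Y + 45 * (m : ℝ) ^ 2) := by nlinarith
      exact le_of_mul_le_mul_left this m0)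
    (by
      have e : 1 + 5 * (1 / (m : ℝ)) =
        (3 * (m : ℝ) ^ 3 + 15 * (m : ℝ) ^ 2) / (3 * (m : ℝ) ^ 3) := by field_simp; ring
      rw [e, ← mul_div_assoc, div_le_div_iff_of_pos_right (by positivity)]
      linarith)
    (by
      have e : 2 * (k / (3 * (m : ℝ) ^ 3)) + q / (3 * (m : ℝ) ^ 4) =
        (2 * m * k + q) / (3 * (m : ℝ) ^ 4) := by field_simp
      have e2 : 3 * (Y / (3 * (m : ℝ) ^ 3)) + 30 * (1 / m) =
        (3 * m * Y + 90 * (m : ℝ) ^ 3) / (3 * (m : ℝ) ^ 4) := by field_simp; ring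
      rw [e, e2, div_le_div_iff_of_pos_right (by positivity)]
      nlinarith)
    (by
      have e : 1 - X / (3 * (m : ℝ) ^ 3) = (3 * (m : ℝ) ^ 3 - X) / (3 * (m : ℝ) ^ 3) := by
        field_simp
      rw [e, div_pow, div_le_div_iff₀ (by positivity) (by positivity)]
      have : (3 * (m : ℝ) ^ 3 - X) ^ 2 * (3 * (m : ℝ) ^ 4) ≤
        (3 * (m : ℝ) ^ 2 * q) * (3 * (m : ℝ) ^ 4) := by gcongr
      calc _ ≤ (3 * (m : ℝ) ^ 2 * q) * (3 * (m : ℝ) ^ 4) := this
        _ = _ := by ring)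
    (by
      rcases h8 with ⟨μ, u0, u1, u2⟩ | u2
      · left
        refine ⟨μ / m, by positivity, ?_, ?_⟩
        · rw [div_le_div_iff₀ m0 (by norm_num)]; linarith
        · have e : μ / m * (X / (3 * (m : ℝ) ^ 3)) + (1 / 2 - μ / m) * (Y / (3 * (m : ℝ) ^ 3)) -
              μ / m * (1 / 2 - μ / m) = (μ * X + (m / 2 - μ) * Y +
                3 * (m : ℝ) ^ 2 * (-(μ * (m / 2 - μ)))) / (3 * (m : ℝ) ^ 4) := by
            field_simp
            ring
          rw [e, div_le_div_iff_of_pos_right (by positivity)]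
          exact u2
      · right
        have e : 1 / 2 * (X / (3 * (m : ℝ) ^ 3)) = (m / 2 * X) / (3 * (m : ℝ) ^ 4) := by
          field_simp
        rw [e, div_le_div_iff_of_pos_right (by positivity)]
        linarith)
  have e : 3 * (dd / (3 * (m : ℝ) ^ 4)) + 15 * (1 / m) =
      ((3 * dd + 45 * (m : ℝ) ^ 3) / m) / (3 * (m : ℝ) ^ 3) := by field_simp; ring
  rw [e, div_le_div_iff_of_pos_right (by positivity), le_div_iff₀ m0] at main
  linarith

/-- the lower bound -/
theorem lower : 2 * (m : ℝ) ^ 3 ≤ G.card + 40 * (m : ℝ) ^ 2 := by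
  have g0 : (0 : ℝ) ≤ G.card := Nat.cast_nonneg _
  rcases Nat.eq_zero_or_pos m with hm | hm
  · subst hm; simp
  have m0 : (0 : ℝ) < m := by exact_mod_cast hm
  have hne : Nonempty V := by
    have : 0 < (c cl 0).card := by rw [card_c h]; omega
    obtain ⟨x, -⟩ := Finset.card_pos.mp this
    exact ⟨x⟩
  have h1 := H1 h
  have h3 := H3 h hne
  have hkey : (m : ℝ) * K G cl m ≤ 3 * D G cl 1 + 159 * (m : ℝ) ^ 3 := by
    rcases lt_or_ge m 100 with hlt | hge
    · have h5 := H5 h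
      have d0 := D_nonneg h (1 : Fin 3)
      have hm' : (m : ℝ) ≤ 99 := by exact_mod_cast Nat.le_of_lt_succ hlt
      have m1 : (1 : ℝ) ≤ m := by exact_mod_cast hm
      have : (m : ℝ) * (2 * K G cl m) ≤ m * (3 * (m : ℝ) ^ 3 + 15 * (m : ℝ) ^ 2) := by gcongr
      have : (m : ℝ) ^ 3 * m ≤ m ^ 3 * 99 := by gcongr
      nlinarith
    · have e1 : -(1 : Fin 3) = 2 := by decide
      have e2 : -(2 : Fin 3) = 1 := by decide
      have m3 : (0 : ℝ) ≤ (m : ℝ) ^ 3 := by positivity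
      rcases le_total (B G cl 2) (B G cl 1) with hle | hle
      · have := key_s h r (s := 1) (by decide) hge (by rw [e1]; exact hle)
        linarith
      · have := key_s h r (s := 2) (by decide) hge (by rw [e2]; exact hle)
        rw [← e1, D_neg] at this
        linarith
  have : (m : ℝ) * (2 * (m : ℝ) ^ 3) ≤ m * (G.card + 40 * (m : ℝ) ^ 2) := by nlinarith
  exact le_of_mul_le_mul_left this m0

end

end Pool.Agent.Helper33.TR
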