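import Mathlib

/-!
Covering 3-graphs with a family of involutions which is sharply transitive on each of three classes:
local inequalities.
-/

set_option autoImplicit false
set_option linter.unusedSectionVars false

namespace Pool.Agent.Helper33.TR

open Finset

variable {V : Type} [Fintype V] [DecidableEq V]

/-- symmetry (without the rotation) -/
structure Fam (G : Finset (Finset V)) (m : ℕ) (cl : V → Fin 3) (T : Finset (Equiv.Perm V)) :
    Prop where
  h3 : ∀ e ∈ G, e.card = 3
  cov : ∀ S : Finset V, S.card = 4 → ∃ e ∈ G, e ⊆ S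
  size : ∀ i, (univ.filter fun x => cl x = i).card = m
  invol : ∀ τ ∈ T, ∀ x, τ (τ x) = x
  cls : ∀ τ ∈ T, ∀ x, cl (τ x) = cl x
  sharp : ∀ x y, cl x = cl y → ∃! τ, τ ∈ T ∧ τ x = y
  autT : ∀ τ ∈ T, ∀ e ∈ G, e.image τ ∈ G

/-- indicator of an edge -/
noncomputable def E (G : Finset (Finset V)) (x y z : V) : ℝ :=
  if ({x, y, z} : Finset V) ∈ G then 1 else 0

/-- indicator of equality -/
noncomputable def I (x y : V) : ℝ := if x = y then 1 else 0

/-- the class -/
def c (cl : V → Fin 3) (i : Fin 3) : Finset V := univ.filter fun x => cl x = i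

omit [Fintype V] in
lemma E01 (G : Finset (Finset V)) (x y z : V) : E G x y z = 0 ∨ E G x y z = 1 := by
  unfold E; split_ifs <;> simp

omit [Fintype V] in
lemma E0 (G : Finset (Finset V)) (x y z : V) : 0 ≤ E G x y z := by
  unfold E; split_ifs <;> simp

omit [Fintype V] in
lemma E1 (G : Finset (Finset V)) (x y z : V) : E G x y z ≤ 1 := by
  unfold E; split_ifs <;> simp

omit [Fintype V] in
lemma E12 (G : Finset (Finset V)) (x y z : V) : E G x y z = E G y x z := by
  unfold E; rw [Finset.insert_comm]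

omit [Fintype V] in
lemma E23 (G : Finset (Finset V)) (x y z : V) : E G x y z = E G x z y := by
  unfold E
  rw [show ({x, y, z} : Finset V) = {x, z, y} by rw [Finset.pair_comm]]

omit [Fintype V] in
lemma I0 (x y : V) : 0 ≤ I x y := by unfold I; split_ifs <;> simp

omit [Fintype V] in
lemma I_self (x : V) : I x x = 1 := by unfold I; simp

omit [Fintype V] in
lemma I_eq {x y : V} (h : x = y) : I x y = 1 := by unfold I; simp [h]

lemma mem_c {cl : V → Fin 3} {i : Fin 3} {x : V} : x ∈ c cl i ↔ cl x = i := by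
  unfold c; simp

section

variable {G : Finset (Finset V)} {m : ℕ} {cl : V → Fin 3} {T : Finset (Equiv.Perm V)}
  (h : Fam G m cl T)

include h

lemma Exx (x z : V) : E G x x z = 0 := by
  unfold E
  rw [if_neg]
  intro hh
  have := h.h3 _ hh
  rw [Finset.insert_eq_of_mem (by simp)] at this
  have h2 := Finset.card_le_two (a := x) (b := z)
  omega

lemma cov4 {a b c d : V} (hab : a ≠ b) (hac : a ≠ c) (had : a ≠ d) (hbc : b ≠ c) (hbd : b ≠ d)
    (hcd : c ≠ d) : 1 ≤ E G a b c + E G a b d + E G a c d + E G b c d := by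
  obtain ⟨e, he, hs⟩ := h.cov {a, b, c, d} (by
    rw [Finset.card_insert_of_notMem, Finset.card_insert_of_notMem, Finset.card_pair hcd]
    · simp [hbc, hbd]
    · simp [hab, hac, had])
  have hc := h.h3 e he
  have n1 := E0 G a b c
  have n2 := E0 G a b d
  have n3 := E0 G a c d
  have n4 := E0 G b c d
  have one : ∀ x y z : V, e = {x, y, z} → E G x y z = 1 := by
    intro x y z hx
    unfold E
    rw [if_pos (hx ▸ he)]
  have key : ∀ v, v ∈ ({a, b, c, d} : Finset V) → v ∉ e → e = ({a, b, c, d} : Finset V).erase v := by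
    intro v hv hve
    apply Finset.eq_of_subset_of_card_le
    · intro w hw
      exact Finset.mem_erase.mpr ⟨fun hwv => hve (hwv ▸ hw), hs hw⟩
    · rw [Finset.card_erase_of_mem hv, hc,
        Finset.card_insert_of_notMem, Finset.card_insert_of_notMem, Finset.card_pair hcd]
      · simp [hbc, hbd]
      · simp [hab, hac, had]
  obtain ⟨v, hv, hve⟩ : ∃ v ∈ ({a, b, c, d} : Finset V), v ∉ e := by
    by_contra hcon
    push Not at hcon
    have : ({a, b, c, d} : Finset V).card ≤ e.card := Finset.card_le_card hcon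
    rw [hc, Finset.card_insert_of_notMem, Finset.card_insert_of_notMem,
      Finset.card_pair hcd] at this
    · omega
    · simp [hbc, hbd]
    · simp [hab, hac, had]
  have hev := key v hv hve
  simp only [Finset.mem_insert, Finset.mem_singleton] at hv
  rcases hv with rfl | rfl | rfl | rfl
  · have : e = {b, c, d} := by
      rw [hev]; ext w; simp only [Finset.mem_erase, Finset.mem_insert, Finset.mem_singleton]
      constructor
      · rintro ⟨h1, h2⟩; tauto
      · rintro (rfl | rfl | rfl) <;> simp [hab.symm, hac.symm, had.symm]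
    rw [one _ _ _ this]; linarith
  · have : e = {a, c, d} := by
      rw [hev]; ext w; simp only [Finset.mem_erase, Finset.mem_insert, Finset.mem_singleton]
      constructor
      · rintro ⟨h1, h2⟩; tauto
      · rintro (rfl | rfl | rfl) <;> simp [hab, hbc.symm, hbd.symm]
    rw [one _ _ _ this]; linarith
  · have : e = {a, b, d} := by
      rw [hev]; ext w; simp only [Finset.mem_erase, Finset.mem_insert, Finset.mem_singleton]
      constructor
      · rintro ⟨h1, h2⟩; tauto
      · rintro (rfl | rfl | rfl) <;> simp [hac, hbc, hcd.symm]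
    rw [one _ _ _ this]; linarith
  · have : e = {a, b, c} := by
      rw [hev]; ext w; simp only [Finset.mem_erase, Finset.mem_insert, Finset.mem_singleton]
      constructor
      · rintro ⟨h1, h2⟩; tauto
      · rintro (rfl | rfl | rfl) <;> simp [had, hbd, hcd]
    rw [one _ _ _ this]; linarith

lemma Einv {τ : Equiv.Perm V} (hτ : τ ∈ T) (x y z : V) : E G (τ x) (τ y) (τ z) = E G x y z := by
  have key : ∀ x y z : V, ({x, y, z} : Finset V) ∈ G → ({τ x, τ y, τ z} : Finset V) ∈ G := by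
    intro x y z hx
    have := h.autT τ hτ _ hx
    simpa [Finset.image_insert, Finset.image_singleton] using this
  have key2 : ({τ x, τ y, τ z} : Finset V) ∈ G ↔ ({x, y, z} : Finset V) ∈ G := by
    constructor
    · intro hx
      have := key _ _ _ hx
      rwa [h.invol τ hτ, h.invol τ hτ, h.invol τ hτ] at this
    · exact key x y z
  unfold E
  exact if_congr key2 rfl rfl

lemma sumT (y : V) (f : V → ℝ) : ∑ τ ∈ T, f (τ y) = ∑ y' ∈ c cl (cl y), f y' := by
  apply Finset.sum_nbij (fun τ : Equiv.Perm V => τ y)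
  · intro τ hτ
    rw [mem_c]
    exact h.cls τ hτ y
  · intro τ hτ τ' hτ' heq
    have hτ := Finset.mem_coe.mp hτ
    have hτ' := Finset.mem_coe.mp hτ'
    obtain ⟨σ, -, hu⟩ := h.sharp y (τ y) (h.cls τ hτ y).symm
    rw [hu τ ⟨hτ, rfl⟩, hu τ' ⟨hτ', heq.symm⟩]
  · intro y' hy'
    have hy' := mem_c.mp (Finset.mem_coe.mp hy')
    obtain ⟨σ, ⟨hσ, hy⟩, -⟩ := h.sharp y y' hy'.symm
    exact ⟨σ, Finset.mem_coe.mpr hσ, hy⟩
  · intro τ _
    rfl

lemma sumτ {τ : Equiv.Perm V} (hτ : τ ∈ T) (i : Fin 3) (f : V → ℝ) :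
    ∑ x ∈ c cl i, f (τ x) = ∑ x ∈ c cl i, f x := by
  apply Finset.sum_nbij (fun x => τ x)
  · intro x hx
    rw [mem_c] at hx ⊢
    rw [h.cls τ hτ, hx]
  · intro x _ x' _ heq
    exact τ.injective heq
  · intro y hy
    have hy := mem_c.mp (Finset.mem_coe.mp hy)
    refine ⟨τ y, Finset.mem_coe.mpr (mem_c.mpr ?_), h.invol τ hτ y⟩
    rw [h.cls τ hτ, hy]
  · intro x _
    rfl

lemma card_c (i : Fin 3) : (c cl i).card = m := h.size i

lemma sum_const_c (i : Fin 3) (a : ℝ) : ∑ _x ∈ c cl i, a = m * a := by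
  rw [Finset.sum_const, card_c h, nsmul_eq_mul]

lemma fixT (y : V) : ∑ τ ∈ T, I (τ y) y = 1 := by
  rw [sumT h y (fun w => I w y)]
  unfold I
  rw [Finset.sum_ite_eq' (c cl (cl y)) y (fun _ => (1 : ℝ))]
  rw [if_pos (mem_c.mpr rfl)]

lemma hitT {x y : V} (hxy : cl x = cl y) : ∑ τ ∈ T, I (τ x) y = 1 := by
  rw [sumT h x (fun w => I w y)]
  unfold I
  rw [Finset.sum_ite_eq' (c cl (cl x)) y (fun _ => (1 : ℝ))]
  rw [if_pos (mem_c.mpr hxy.symm)]

lemma pairsT (i : Fin 3) (F : V → V → ℝ) :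
    ∑ τ ∈ T, ∑ x ∈ c cl i, F x (τ x) = ∑ x ∈ c cl i, ∑ x' ∈ c cl i, F x x' := by
  rw [Finset.sum_comm]
  refine Finset.sum_congr rfl fun x hx => ?_
  rw [sumT h x (F x), mem_c.mp hx]

lemma cardT (hne : Nonempty V) : (T.card : ℝ) = m := by
  obtain ⟨y⟩ := hne
  have := sumT h y (fun _ => (1 : ℝ))
  rw [sum_const_c h] at this
  simpa using this

/-- arcs -/
lemma arc {τ : Equiv.Perm V} (hτ : τ ∈ T) {x y : V} (h1 : τ x ≠ x) (h2 : τ y ≠ y)
    (h3 : x ≠ y) (h4 : τ x ≠ y) : 1 ≤ E G x (τ x) y + E G y (τ y) x := by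
  have h5 : x ≠ τ y := by
    intro hh
    apply h4
    rw [hh, h.invol τ hτ]
  have h6 : τ x ≠ τ y := fun hh => h3 (τ.injective hh)
  have k := cov4 h h1.symm h3 h5 h4 h6 h2.symm
  have e1 : E G x (τ x) (τ y) = E G x (τ x) y := by
    rw [← Einv h hτ x (τ x) (τ y), h.invol τ hτ, h.invol τ hτ, E12]
  have e2 : E G x y (τ y) = E G y (τ y) x := by
    rw [E12, E23]
  have e3 : E G (τ x) y (τ y) = E G y (τ y) x := by
    rw [← Einv h hτ (τ x) y (τ y), h.invol τ hτ, h.invol τ hτ, E12, E23]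
    rw [E12 G (τ y) y x]
  rw [e1, e2, e3] at k
  rcases E01 G x (τ x) y with p | p <;> rcases E01 G y (τ y) x with q | q <;> rw [p, q] at k ⊢ <;>
    linarith

/-- the local inequality for three pairs -/
lemma local3 {τ : Equiv.Perm V} (hτ : τ ∈ T) {x y z : V} (hx : τ x ≠ x) (hy : τ y ≠ y)
    (hz : τ z ≠ z) (hxy : x ≠ y) (hxy' : τ x ≠ y) (hxz : x ≠ z) (hxz' : τ x ≠ z) (hyz : y ≠ z)
    (hyz' : τ y ≠ z) :
    2 * ((1 - E G x (τ x) y) * (1 - E G x (τ x) z) + (1 - E G y (τ y) x) * (1 - E G y (τ y) z) +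
      (1 - E G z (τ z) x) * (1 - E G z (τ z) y)) ≤
      E G x y z + E G (τ x) y z + E G x (τ y) z + E G x y (τ z) := by
  have ii : ∀ w, τ (τ w) = w := h.invol τ hτ
  have inj : ∀ {a b : V}, a ≠ b → τ a ≠ τ b := fun hab hh => hab (τ.injective hh)
  have sw : ∀ {a b : V}, τ a ≠ b → a ≠ τ b := fun hab hh => hab (by rw [hh, ii])
  have a1 := arc h hτ hx hy hxy hxy'
  have a2 := arc h hτ hx hz hxz hxz'
  have a3 := arc h hτ hy hz hyz hyz'
  have k1 := cov4 h hx.symm hxy hxz hxy' hxz' hyz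
  have k2 := cov4 h hx.symm (sw hxy') hxz (inj hxy) hxz' hyz'
  have k3 := cov4 h hy.symm hxy.symm hyz (sw hxy').symm hyz' hxz
  have k4 := cov4 h hy.symm hxy'.symm hyz (inj hxy).symm hyz' hxz'
  have k5 := cov4 h hz.symm hxz.symm hyz.symm (sw hxz').symm (sw hyz').symm hxy
  have k6 := cov4 h hz.symm hxz'.symm hyz.symm (inj hxz).symm (sw hyz').symm hxy'
  have r1 : E G x (τ x) (τ y) = E G x (τ x) y := by
    rw [← Einv h hτ x (τ x) (τ y), ii, ii, E12]
  have r2 : E G (τ x) (τ y) z = E G x y (τ z) := by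
    rw [← Einv h hτ x y (τ z), ii]
  have r3 : E G y (τ y) (τ x) = E G y (τ y) x := by
    rw [← Einv h hτ y (τ y) (τ x), ii, ii, E12]
  have r4 : E G z (τ z) (τ x) = E G z (τ z) x := by
    rw [← Einv h hτ z (τ z) (τ x), ii, ii, E12]
  have r5 : E G y x z = E G x y z := E12 _ _ _ _
  have r6 : E G (τ y) x z = E G x (τ y) z := E12 _ _ _ _
  have r7 : E G y (τ x) z = E G (τ x) y z := E12 _ _ _ _
  have r8 : E G (τ y) (τ x) z = E G x y (τ z) := by rw [E12, r2]
  have r9 : E G z x y = E G x y z := by rw [E12, E23]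
  have r10 : E G (τ z) x y = E G x y (τ z) := by rw [E12, E23]
  have r11 : E G z (τ x) y = E G (τ x) y z := by rw [E12, E23]
  have r12 : E G (τ z) (τ x) y = E G x (τ y) z := by
    rw [E12, E23, ← Einv h hτ x (τ y) z, ii]
  rw [r1, r2] at k2
  rw [r5, r6] at k3
  rw [r3, r7, r8] at k4
  rw [r9, r10] at k5
  rw [r4, r11, r12] at k6
  rcases E01 G x (τ x) y with p1 | p1 <;> rcases E01 G x (τ x) z with p2 | p2 <;>
  rcases E01 G y (τ y) x with p3 | p3 <;> rcases E01 G y (τ y) z with p4 | p4 <;>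
  rcases E01 G z (τ z) x with p5 | p5 <;> rcases E01 G z (τ z) y with p6 | p6 <;>
  rw [p1, p3] at a1 <;> rw [p2, p5] at a2 <;> rw [p4, p6] at a3 <;>
  first
  | (exfalso; linarith; done)
  | (rw [p1, p2] at k1 k2; rw [p3, p4] at k3 k4; rw [p5, p6] at k5 k6
     rw [p1, p2, p3, p4, p5, p6]
     have := E0 G x y z
     have := E0 G (τ x) y z
     have := E0 G x (τ y) z
     have := E0 G x y (τ z)
     linarith)

/-- with fixed points allowed -/
lemma local3' {τ : Equiv.Perm V} (hτ : τ ∈ T) (x y z : V) :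
    2 * ((1 - E G x (τ x) y) * (1 - E G x (τ x) z) + (1 - E G y (τ y) x) * (1 - E G y (τ y) z) +
      (1 - E G z (τ z) x) * (1 - E G z (τ z) y)) ≤
      E G x y z + E G (τ x) y z + E G x (τ y) z + E G x y (τ z) +
      6 * (I (τ x) x + I (τ y) y + I (τ z) z + I x y + I (τ x) y + I x z + I (τ x) z + I y z +
        I (τ y) z) := by
  have b : ∀ u v w s : V, (1 - E G u v w) * (1 - E G u v s) ≤ 1 := by
    intro u v w s
    have h1 := E0 G u v w
    have h2 := E1 G u v w
    have h3 := E0 G u v s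
    have h4 := E1 G u v s
    nlinarith
  have b1 := b x (τ x) y z
  have b2 := b y (τ y) x z
  have b3 := b z (τ z) x y
  have e1 := E0 G x y z
  have e2 := E0 G (τ x) y z
  have e3 := E0 G x (τ y) z
  have e4 := E0 G x y (τ z)
  have i1 := I0 (τ x) x
  have i2 := I0 (τ y) y
  have i3 := I0 (τ z) z
  have i4 := I0 x y
  have i5 := I0 (τ x) y
  have i6 := I0 x z
  have i7 := I0 (τ x) z
  have i8 := I0 y z
  have i9 := I0 (τ y) z
  by_cases q1 : τ x = x
  · have := I_eq q1; linarith
  by_cases q2 : τ y = y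
  · have := I_eq q2; linarith
  by_cases q3 : τ z = z
  · have := I_eq q3; linarith
  by_cases q4 : x = y
  · have := I_eq q4; linarith
  by_cases q5 : τ x = y
  · have := I_eq q5; linarith
  by_cases q6 : x = z
  · have := I_eq q6; linarith
  by_cases q7 : τ x = z
  · have := I_eq q7; linarith
  by_cases q8 : y = z
  · have := I_eq q8; linarith
  by_cases q9 : τ y = z
  · have := I_eq q9; linarith
  have := local3 h hτ q1 q2 q3 q4 q5 q6 q7 q8 q9
  linarith

end

end Pool.Agent.Helper33.TR
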