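import Pool.Agent.Helper33.TR.Hs

/-!
The number of edges.
-/

set_option autoImplicit false
set_option linter.unusedSectionVars false
set_option linter.unusedVariables false

namespace Pool.Agent.Helper33.TR

open Finset

variable {V : Type} [Fintype V] [DecidableEq V]

/-- the number of ordered triples is six times the number of edges -/
lemma six_card (G : Finset (Finset V)) (hE : ∀ e ∈ G, e.card = 3) :
    ∑ x, ∑ y, ∑ z, E G x y z = 6 * G.card := by
  classical
  have h1 : ∑ x, ∑ y, ∑ z, E G x y z =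
      (((univ : Finset (V × V × V)).filter
        fun p => ({p.1, p.2.1, p.2.2} : Finset V) ∈ G).card : ℝ) := by
    rw [Finset.card_filter, Fintype.sum_prod_type, Nat.cast_sum]
    apply Finset.sum_congr rfl
    intro x _
    rw [Fintype.sum_prod_type, Nat.cast_sum]
    refine Finset.sum_congr rfl fun y _ => ?_
    rw [Nat.cast_sum]
    refine Finset.sum_congr rfl fun z _ => ?_
    unfold E
    push_cast
    rfl
  rw [h1]
  have hfib := Finset.card_eq_sum_card_fiberwise
    (s := (univ : Finset (V × V × V)).filter fun p => ({p.1, p.2.1, p.2.2} : Finset V) ∈ G)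
    (t := G) (f := fun p : V × V × V => ({p.1, p.2.1, p.2.2} : Finset V))
    (by intro p hp; exact (Finset.mem_filter.mp (Finset.mem_coe.mp hp)).2)
  rw [hfib]
  have h2 : ∀ e ∈ G, (((univ : Finset (V × V × V)).filter
      fun p => ({p.1, p.2.1, p.2.2} : Finset V) ∈ G).filter
      fun p => ({p.1, p.2.1, p.2.2} : Finset V) = e).card = 6 := by
    intro e he
    obtain ⟨a, b, c, hab, hac, hbc, rfl⟩ := Finset.card_eq_three.mp (hE e he)
    have h3 : (((univ : Finset (V × V × V)).filter
        fun p => ({p.1, p.2.1, p.2.2} : Finset V) ∈ G).filter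
      fun p => ({p.1, p.2.1, p.2.2} : Finset V) = {a, b, c}) =
      {(a, b, c), (a, c, b), (b, a, c), (b, c, a), (c, a, b), (c, b, a)} := by
      ext ⟨x, y, z⟩
      simp only [Finset.mem_filter, Finset.mem_univ, true_and, Finset.mem_insert,
        Finset.mem_singleton, Prod.mk.injEq]
      constructor
      · rintro ⟨-, h⟩
        have hx : x ∈ ({a, b, c} : Finset V) := by rw [← h]; simp
        have hy : y ∈ ({a, b, c} : Finset V) := by rw [← h]; simp
        have hz : z ∈ ({a, b, c} : Finset V) := by rw [← h]; simp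
        have ha : a ∈ ({x, y, z} : Finset V) := by rw [h]; simp
        have hb : b ∈ ({x, y, z} : Finset V) := by rw [h]; simp
        have hc : c ∈ ({x, y, z} : Finset V) := by rw [h]; simp
        simp only [Finset.mem_insert, Finset.mem_singleton] at hx hy hz ha hb hc
        rcases hx with rfl | rfl | rfl <;> rcases hy with rfl | rfl | rfl <;>
          rcases hz with rfl | rfl | rfl <;>
          first
          | (simp; done)
          | (exact absurd rfl hab)
          | (exact absurd rfl hac)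
          | (exact absurd rfl hbc)
          | (exfalso; rcases ha with p | p | p <;> rcases hb with q | q | q <;>
              rcases hc with r | r | r <;>
              first
              | exact hab (p.trans q.symm)
              | exact hac (p.trans r.symm)
              | exact hbc (q.trans r.symm))
      · intro h
        have key : ({x, y, z} : Finset V) = {a, b, c} := by
          rcases h with ⟨rfl, rfl, rfl⟩ | ⟨rfl, rfl, rfl⟩ | ⟨rfl, rfl, rfl⟩ | ⟨rfl, rfl, rfl⟩ |
            ⟨rfl, rfl, rfl⟩ | ⟨rfl, rfl, rfl⟩ <;> ext w <;> simp <;> tauto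
        exact ⟨by rw [key]; exact he, key⟩
    rw [h3]
    rw [Finset.card_insert_of_notMem, Finset.card_insert_of_notMem, Finset.card_insert_of_notMem,
      Finset.card_insert_of_notMem, Finset.card_insert_of_notMem, Finset.card_singleton] <;>
      simp [hab, hac, hbc, hab.symm, hac.symm, hbc.symm]
  rw [Finset.sum_congr rfl h2, Finset.sum_const, smul_eq_mul, mul_comm]
  push_cast
  ring

lemma split_c (cl : V → Fin 3) (f : V → ℝ) : ∑ x, f x = ∑ i : Fin 3, ∑ x ∈ c cl i, f x :=
  (Finset.sum_fiberwise (univ : Finset V) cl f).symm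

lemma split3 (G : Finset (Finset V)) (cl : V → Fin 3) :
    ∑ x, ∑ y, ∑ z, E G x y z = ∑ i : Fin 3, ∑ j : Fin 3, ∑ k : Fin 3, S G cl i j k := by
  unfold S
  rw [split_c cl]
  refine Finset.sum_congr rfl fun i _ => ?_
  calc ∑ x ∈ c cl i, ∑ y, ∑ z, E G x y z
      = ∑ x ∈ c cl i, ∑ j : Fin 3, ∑ y ∈ c cl j, ∑ z, E G x y z :=
        Finset.sum_congr rfl fun x _ => split_c cl _
    _ = ∑ j : Fin 3, ∑ x ∈ c cl i, ∑ y ∈ c cl j, ∑ z, E G x y z := Finset.sum_comm
    _ = ∑ j : Fin 3, ∑ k : Fin 3, ∑ x ∈ c cl i, ∑ y ∈ c cl j, ∑ z ∈ c cl k, E G x y z := by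
        refine Finset.sum_congr rfl fun j _ => ?_
        calc ∑ x ∈ c cl i, ∑ y ∈ c cl j, ∑ z, E G x y z
            = ∑ x ∈ c cl i, ∑ k : Fin 3, ∑ y ∈ c cl j, ∑ z ∈ c cl k, E G x y z := by
              refine Finset.sum_congr rfl fun x _ => ?_
              refine Eq.trans ?_ Finset.sum_comm
              exact Finset.sum_congr rfl fun y _ => split_c cl _
          _ = ∑ k : Fin 3, ∑ x ∈ c cl i, ∑ y ∈ c cl j, ∑ z ∈ c cl k, E G x y z :=
              Finset.sum_comm

/-- the number of edges in terms of the totals -/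
lemma edges_S (G : Finset (Finset V)) (cl : V → Fin 3) (hE : ∀ e ∈ G, e.card = 3) :
    (6 : ℝ) * G.card = S G cl 0 0 0 + S G cl 1 1 1 + S G cl 2 2 2 +
      3 * (S G cl 0 0 1 + S G cl 1 1 2 + S G cl 2 2 0 + S G cl 0 0 2 + S G cl 1 1 0 +
        S G cl 2 2 1) + 6 * S G cl 0 1 2 := by
  rw [← six_card G hE, split3 G cl]
  simp only [Fin.sum_univ_three]
  have s12 : ∀ i j k, S G cl i j k = S G cl j i k := fun i j k => S12 i j k
  have s23 : ∀ i j k, S G cl i j k = S G cl i k j := fun i j k => S23 i j k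
  rw [s23 0 1 0, s23 0 2 0, s12 1 0 0, s23 0 1 0, s12 2 0 0, s23 0 2 0]
  rw [s12 0 1 1, s23 1 0 1, s23 1 2 1, s12 2 1 1, s23 1 2 1]
  rw [s12 0 2 2, s23 2 0 2, s12 1 2 2, s23 2 1 2]
  rw [s23 0 2 1, s12 1 0 2, s23 1 2 0, s12 1 0 2, s12 2 0 1, s23 0 2 1, s23 2 1 0, s12 2 0 1,
    s23 0 2 1]
  ring

section

variable {G : Finset (Finset V)} {m : ℕ} {cl : V → Fin 3} {T : Finset (Equiv.Perm V)}
  (h : Fam G m cl T)

include h

lemma H1 : (6 : ℝ) * G.card = 3 * (m : ℝ) ^ 3 - K G cl m + 3 * (B G cl 1 + B G cl 2) +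
    6 * S G cl 0 1 2 := by
  rw [edges_S G cl h.h3]
  unfold K B
  simp only [Fin.sum_univ_three, Ki_eq h]
  have a1 : (0 : Fin 3) + 1 = 1 := by decide
  have a2 : (1 : Fin 3) + 1 = 2 := by decide
  have a3 : (2 : Fin 3) + 1 = 0 := by decide
  have b1 : (0 : Fin 3) + 2 = 2 := by decide
  have b2 : (1 : Fin 3) + 2 = 0 := by decide
  have b3 : (2 : Fin 3) + 2 = 1 := by decide
  rw [a1, a2, a3, b1, b2, b3]
  ring

end

end Pool.Agent.Helper33.TR
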