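import Pool.Agent.Helper33.TR.Arith

/-!
Turán's construction on three copies of a finite abelian group.
-/

set_option autoImplicit false
set_option linter.unusedSectionVars false
set_option linter.unusedVariables false

namespace Pool.Agent.Helper33.TR

open Finset

variable {A : Type} [AddCommGroup A] [Fintype A] [DecidableEq A]

open Classical in
/-- Turán's construction -/
noncomputable def turanG (A : Type) [Fintype A] [DecidableEq A] : Finset (Finset (A × Fin 3)) :=
  univ.filter fun e => e.card = 3 ∧ ∃ i : Fin 3, (∀ w ∈ e, w.2 = i ∨ w.2 = i + 1) ∧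
    ∀ w ∈ e, ∀ w' ∈ e, w.2 = i + 1 → w'.2 = i + 1 → w = w'

omit [AddCommGroup A] in
lemma mem_turanG {e : Finset (A × Fin 3)} : e ∈ turanG A ↔ e.card = 3 ∧ ∃ i : Fin 3,
    (∀ w ∈ e, w.2 = i ∨ w.2 = i + 1) ∧
    ∀ w ∈ e, ∀ w' ∈ e, w.2 = i + 1 → w'.2 = i + 1 → w = w' := by
  classical
  unfold turanG
  simp

/-- point reflection -/
def pr (c : A) : Equiv.Perm (A × Fin 3) where
  toFun p := (c - p.1, p.2)
  invFun p := (c - p.1, p.2)
  left_inv p := by simp
  right_inv p := by simp

/-- rotation of the three copies -/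
def rt (A : Type) : Equiv.Perm (A × Fin 3) where
  toFun p := (p.1, p.2 + 1)
  invFun p := (p.1, p.2 - 1)
  left_inv p := by simp
  right_inv p := by simp

/-- admissible patterns of classes -/
def good (p q r : Fin 3) : Prop :=
  ∃ i : Fin 3, (p = i ∨ p = i + 1) ∧ (q = i ∨ q = i + 1) ∧ (r = i ∨ r = i + 1) ∧
    ¬ (p = i + 1 ∧ q = i + 1) ∧ ¬ (p = i + 1 ∧ r = i + 1) ∧ ¬ (q = i + 1 ∧ r = i + 1)

instance (p q r : Fin 3) : Decidable (good p q r) := by unfold good; infer_instance

lemma good4 : ∀ p q r s : Fin 3, good p q r ∨ good p q s ∨ good p r s ∨ good q r s := by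
  decide

lemma mem_turan {x y z : A × Fin 3} (hxy : x ≠ y) (hxz : x ≠ z) (hyz : y ≠ z)
    (hg : good x.2 y.2 z.2) : ({x, y, z} : Finset (A × Fin 3)) ∈ turanG A := by
  rw [mem_turanG]
  refine ⟨?_, ?_⟩
  · rw [Finset.card_insert_of_notMem, Finset.card_pair hyz]
    simp [hxy, hxz]
  · obtain ⟨i, h1, h2, h3, h4, h5, h6⟩ := hg
    refine ⟨i, ?_, ?_⟩
    · intro w hw
      simp only [Finset.mem_insert, Finset.mem_singleton] at hw
      rcases hw with rfl | rfl | rfl <;> assumption
    · intro w hw w' hw' e e'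
      simp only [Finset.mem_insert, Finset.mem_singleton] at hw hw'
      rcases hw with rfl | rfl | rfl <;> rcases hw' with rfl | rfl | rfl <;> tauto

lemma turan_cover (S : Finset (A × Fin 3)) (hS : S.card = 4) : ∃ e ∈ turanG A, e ⊆ S := by
  obtain ⟨a, b, c, d, hab, hac, had, hbc, hbd, hcd, rfl⟩ := Finset.card_eq_four.mp hS
  rcases good4 a.2 b.2 c.2 d.2 with g | g | g | g
  · refine ⟨_, mem_turan hab hac hbc g, ?_⟩
    intro w hw
    simp only [Finset.mem_insert, Finset.mem_singleton] at hw ⊢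
    tauto
  · refine ⟨_, mem_turan hab had hbd g, ?_⟩
    intro w hw
    simp only [Finset.mem_insert, Finset.mem_singleton] at hw ⊢
    tauto
  · refine ⟨_, mem_turan hac had hcd g, ?_⟩
    intro w hw
    simp only [Finset.mem_insert, Finset.mem_singleton] at hw ⊢
    tauto
  · refine ⟨_, mem_turan hbc hbd hcd g, ?_⟩
    intro w hw
    simp only [Finset.mem_insert, Finset.mem_singleton] at hw ⊢
    tauto

lemma turan_image (σ : Equiv.Perm (A × Fin 3)) (s : Fin 3) (hσ : ∀ p, (σ p).2 = p.2 + s)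
    (e : Finset (A × Fin 3)) (he : e ∈ turanG A) : e.image σ ∈ turanG A := by
  rw [mem_turanG] at he ⊢
  obtain ⟨h3, i, h1, h2⟩ := he
  refine ⟨by rw [Finset.card_image_of_injective _ σ.injective, h3], i + s, ?_, ?_⟩
  · intro w hw
    obtain ⟨v, hv, rfl⟩ := Finset.mem_image.mp hw
    rw [hσ]
    rcases h1 v hv with h | h
    · left; rw [h]
    · right; rw [h]; abel
  · intro w hw w' hw' e1 e2
    obtain ⟨v, hv, rfl⟩ := Finset.mem_image.mp hw
    obtain ⟨v', hv', rfl⟩ := Finset.mem_image.mp hw'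
    rw [hσ] at e1 e2
    have f1 : v.2 = i + 1 := by
      have : v.2 + s = (i + 1) + s := by rw [e1]; abel
      exact add_right_cancel this
    have f2 : v'.2 = i + 1 := by
      have : v'.2 + s = (i + 1) + s := by rw [e2]; abel
      exact add_right_cancel this
    rw [h2 v hv v' hv' f1 f2]

lemma turan_three (e : Finset (A × Fin 3)) (he : e ∈ turanG A) : e.card = 3 :=
  (mem_turanG.mp he).1

lemma card_copy (i : Fin 3) :
    (univ.filter fun p : A × Fin 3 => p.2 = i).card = Fintype.card A := by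
  have : (univ.filter fun p : A × Fin 3 => p.2 = i) = (univ : Finset A) ×ˢ {i} := by
    ext ⟨a, j⟩; simp [eq_comm]
  rw [this, Finset.card_product]
  simp

lemma turanFam : Fam (turanG A) (Fintype.card A) (Prod.snd) (univ.image (pr (A := A))) where
  h3 := turan_three
  cov := turan_cover
  size := card_copy
  invol := by
    intro τ hτ x
    obtain ⟨c, -, rfl⟩ := Finset.mem_image.mp hτ
    simp [pr]
  cls := by
    intro τ hτ x
    obtain ⟨c, -, rfl⟩ := Finset.mem_image.mp hτ
    simp [pr]
  sharp := by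
    rintro ⟨x, i⟩ ⟨y, j⟩ hij
    simp only at hij
    subst hij
    refine ⟨pr (x + y), ⟨Finset.mem_image_of_mem _ (Finset.mem_univ _), by simp [pr]⟩, ?_⟩
    rintro τ ⟨hτ, he⟩
    obtain ⟨c, -, rfl⟩ := Finset.mem_image.mp hτ
    have : c - x = y := by simpa [pr] using he
    rw [← this]
    congr 1
    abel
  autT := by
    intro τ hτ e he
    obtain ⟨c, -, rfl⟩ := Finset.mem_image.mp hτ
    exact turan_image _ 0 (by intro p; simp [pr]) e he

lemma turanRot : Rot (turanG A) (Prod.snd) (rt A) where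
  shift := by intro x; simp [rt]
  aut := fun e he => turan_image _ 1 (by intro p; simp [rt]) e he

lemma not_good_zero {i j k : Fin 3} (hn : ¬ good i j k) : S (turanG A) Prod.snd i j k = 0 := by
  unfold S
  refine Finset.sum_eq_zero fun x hx => Finset.sum_eq_zero fun y hy =>
    Finset.sum_eq_zero fun z hz => ?_
  rw [mem_c] at hx hy hz
  unfold E
  rw [if_neg]
  intro hmem
  apply hn
  rw [mem_turanG] at hmem
  obtain ⟨h3, l, h1, h2⟩ := hmem
  have hxy : x ≠ y := by
    rintro rfl
    rw [Finset.insert_eq_of_mem (by simp)] at h3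
    have := Finset.card_le_two (a := x) (b := z)
    omega
  have hxz : x ≠ z := by
    rintro rfl
    rw [Finset.insert_eq_of_mem (by simp)] at h3
    have := Finset.card_le_two (a := y) (b := x)
    omega
  have hyz : y ≠ z := by
    rintro rfl
    rw [show ({x, y, y} : Finset (A × Fin 3)) = {x, y} by simp] at h3
    have := Finset.card_le_two (a := x) (b := y)
    omega
  refine ⟨l, hx ▸ h1 x (by simp), hy ▸ h1 y (by simp), hz ▸ h1 z (by simp), ?_, ?_, ?_⟩
  · rintro ⟨p, q⟩; exact hxy (h2 x (by simp) y (by simp) (hx.trans p) (hy.trans q))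
  · rintro ⟨p, q⟩; exact hxz (h2 x (by simp) z (by simp) (hx.trans p) (hz.trans q))
  · rintro ⟨p, q⟩; exact hyz (h2 y (by simp) z (by simp) (hy.trans p) (hz.trans q))

lemma S_le (i j k : Fin 3) : S (turanG A) Prod.snd i j k ≤ (Fintype.card A : ℝ) ^ 3 := by
  unfold S
  calc _ ≤ ∑ x ∈ c (Prod.snd : A × Fin 3 → Fin 3) i, ∑ y ∈ c (Prod.snd : A × Fin 3 → Fin 3) j,
        ∑ z ∈ c (Prod.snd : A × Fin 3 → Fin 3) k, (1 : ℝ) :=
        Finset.sum_le_sum fun x _ => Finset.sum_le_sum fun y _ => Finset.sum_le_sum fun z _ =>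
          E1 _ _ _ _
    _ = (Fintype.card A : ℝ) ^ 3 := by
        rw [sum_const_c turanFam, sum_const_c turanFam, sum_const_c turanFam]; ring

lemma turan_card : (turanG A).card ≤ 2 * (Fintype.card A) ^ 3 := by
  have h := edges_S (turanG A) Prod.snd turan_three
  rw [not_good_zero (i := 0) (j := 0) (k := 2) (by decide),
    not_good_zero (i := 1) (j := 1) (k := 0) (by decide),
    not_good_zero (i := 2) (j := 2) (k := 1) (by decide),
    not_good_zero (i := 0) (j := 1) (k := 2) (by decide)] at h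
  have a := S_le (A := A) 0 0 0
  have b := S_le (A := A) 1 1 1
  have c := S_le (A := A) 2 2 2
  have d := S_le (A := A) 0 0 1
  have e := S_le (A := A) 1 1 2
  have f := S_le (A := A) 2 2 0
  have : ((turanG A).card : ℝ) ≤ 2 * (Fintype.card A : ℝ) ^ 3 := by linarith
  exact_mod_cast this

end Pool.Agent.Helper33.TR
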