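import Pool.Agent.Helper33.TR.Tot

/-!
The inequalities between the totals.
-/

set_option autoImplicit false
set_option linter.unusedSectionVars false
set_option linter.unusedVariables false

namespace Pool.Agent.Helper33.TR

open Finset

variable {V : Type} [Fintype V] [DecidableEq V]

lemma add_ne {i s : Fin 3} (hs : s ≠ 0) : i ≠ i + s := by
  revert i s; decide

section

variable {G : Finset (Finset V)} {m : ℕ} {cl : V → Fin 3} {T : Finset (Equiv.Perm V)}
  (h : Fam G m cl T)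

lemma S_nonneg (i j k : Fin 3) : 0 ≤ S G cl i j k :=
  Finset.sum_nonneg fun x _ => Finset.sum_nonneg fun y _ => Finset.sum_nonneg fun z _ => E0 _ _ _ _

lemma D_neg (s : Fin 3) : D G cl (-s) = D G cl s := by
  unfold D Di
  refine Finset.sum_congr rfl fun i _ => Finset.sum_congr rfl fun x _ =>
    Finset.sum_congr rfl fun x' _ => ?_
  rw [mul_comm, sub_neg_eq_add, ← sub_eq_add_neg]

include h

/-- arcs -/
lemma H2 (hne : Nonempty V) {s : Fin 3} (hs : s ≠ 0) :
    3 * (m : ℝ) ^ 3 ≤ B G cl s + B G cl (-s) + 6 * (m : ℝ) ^ 2 := by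
  have e : B G cl (-s) = ∑ i : Fin 3, S G cl (i + s) (i + s) i := by
    unfold B
    rw [← Equiv.sum_comp (Equiv.addRight s)]
    refine Finset.sum_congr rfl fun i _ => ?_
    simp
  have key := Finset.sum_le_sum fun (i : Fin 3) (_ : i ∈ univ) =>
    arcs h hne (i := i) (j := i + s) (add_ne hs)
  rw [Finset.sum_add_distrib, Finset.sum_add_distrib] at key
  rw [e]
  unfold B
  simp only [Finset.sum_const, Finset.card_univ, Fintype.card_fin, nsmul_eq_mul] at key
  push_cast at key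
  linarith

/-- inner triples and outer edges -/
lemma H4 {s : Fin 3} (hs : s ≠ 0) : 2 * m * K G cl m ≤ 3 * ((m : ℝ) + 3) * B G cl s +
    18 * (m : ℝ) ^ 3 := by
  have key := Finset.sum_le_sum fun (i : Fin 3) (_ : i ∈ univ) =>
    (show 2 * (m : ℝ) * Ki G cl m i ≤ 3 * ((m : ℝ) + 3) * S G cl i i (i + s) +
      6 * (m : ℝ) ^ 3 by
      have h1 := e_ineq h (i := i) (j := i + s) (add_ne hs)
      have h2 := W_le h i (i + s)
      linarith)
  rw [Finset.sum_add_distrib, ← Finset.mul_sum, ← Finset.mul_sum] at key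
  simp only [Finset.sum_const, Finset.card_univ, Fintype.card_fin, nsmul_eq_mul] at key
  push_cast at key
  unfold K B
  linarith

lemma H5 : 2 * K G cl m ≤ 3 * (m : ℝ) ^ 3 + 15 * (m : ℝ) ^ 2 := by
  have key := Finset.sum_le_sum fun (i : Fin 3) (_ : i ∈ univ) => K5i h i
  rw [← Finset.mul_sum] at key
  simp only [Finset.sum_const, Finset.card_univ, Fintype.card_fin, nsmul_eq_mul] at key
  push_cast at key
  unfold K
  linarith

lemma H6 (hne : Nonempty V) {s : Fin 3} (hs : s ≠ 0) :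
    4 * m * K G cl m + 2 * Q G cl m (-s) ≤ 4 * m * B G cl s +
      2 * ((m : ℝ) + 3) * B G cl s + 162 * (m : ℝ) ^ 3 := by
  have e : Q G cl m (-s) = ∑ i : Fin 3, P G cl m (i + s) i i := by
    unfold Q
    rw [← Equiv.sum_comp (Equiv.addRight s)]
    refine Finset.sum_congr rfl fun i _ => ?_
    simp
  have key := Finset.sum_le_sum fun (i : Fin 3) (_ : i ∈ univ) =>
    (show 4 * (m : ℝ) * Ki G cl m i + 2 * P G cl m (i + s) i i ≤
      (4 * m + 2 * ((m : ℝ) + 3)) * S G cl i i (i + s) + 54 * (m : ℝ) ^ 3 by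
      have h1 := ineq3 h hne i i (i + s)
      have h2 := W_le h i (i + s)
      have h3 := P_inner h i (i + s)
      rw [h3] at h1
      linarith)
  rw [Finset.sum_add_distrib, Finset.sum_add_distrib, ← Finset.mul_sum, ← Finset.mul_sum,
    ← Finset.mul_sum] at key
  simp only [Finset.sum_const, Finset.card_univ, Fintype.card_fin, nsmul_eq_mul] at key
  push_cast at key
  rw [e]
  unfold K B
  linarith

lemma H7 (s : Fin 3) : (3 * (m : ℝ) ^ 3 - B G cl s) ^ 2 ≤ 3 * (m : ℝ) ^ 2 * Q G cl m s := by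
  have one : ∀ i : Fin 3, ((m : ℝ) ^ 3 - S G cl i i (i + s)) ^ 2 ≤
      (m : ℝ) ^ 2 * P G cl m i (i + s) (i + s) := by
    intro i
    have cs := sq_sum_le_card_mul_sum_sq (s := (c cl i) ×ˢ (c cl i))
      (f := fun p : V × V => (m : ℝ) - d G cl (i + s) p.1 p.2)
    rw [Finset.sum_product, Finset.sum_product, Finset.card_product, card_c h] at cs
    have e1 : ∑ x ∈ c cl i, ∑ x' ∈ c cl i, ((m : ℝ) - d G cl (i + s) x x') =
        (m : ℝ) ^ 3 - S G cl i i (i + s) := by
      rw [S_eq_d]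
      have c0 : (m : ℝ) ^ 3 = ∑ x ∈ c cl i, ∑ x' ∈ c cl i, (m : ℝ) := by
        rw [sum_const_c h, sum_const_c h]; ring
      rw [c0, ← Finset.sum_sub_distrib]
      refine Finset.sum_congr rfl fun x _ => ?_
      rw [← Finset.sum_sub_distrib]
    have e2 : ∑ x ∈ c cl i, ∑ x' ∈ c cl i, ((m : ℝ) - d G cl (i + s) x x') ^ 2 =
        P G cl m i (i + s) (i + s) :=
      Finset.sum_congr rfl fun x _ => Finset.sum_congr rfl fun x' _ => by ring
    rw [e1, e2] at cs
    push_cast at cs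
    nlinarith
  have h0 := one 0
  have h1 := one 1
  have h2 := one 2
  unfold B Q
  rw [Fin.sum_univ_three, Fin.sum_univ_three]
  set a := (m : ℝ) ^ 3 - S G cl 0 0 (0 + s) with ha
  set b := (m : ℝ) ^ 3 - S G cl 1 1 (1 + s) with hb
  set e := (m : ℝ) ^ 3 - S G cl 2 2 (2 + s) with he
  have : 3 * (m : ℝ) ^ 3 - (S G cl 0 0 (0 + s) + S G cl 1 1 (1 + s) + S G cl 2 2 (2 + s)) =
      a + b + e := by rw [ha, hb, he]; ring
  rw [this]
  nlinarith [sq_nonneg (a - b), sq_nonneg (b - e), sq_nonneg (a - e)]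

/-- transversal edges -/
lemma H3 (hne : Nonempty V) : 2 * (3 * (m : ℝ) ^ 4 - m * (B G cl 1 + B G cl 2) + D G cl 1) ≤
    4 * (m * S G cl 0 1 2) + 54 * (m : ℝ) ^ 3 := by
  have key := ineq3 h hne 0 1 2
  rw [P_outer h 0 1 2, P_outer h 1 0 2, P_outer h 2 0 1] at key
  unfold B D
  rw [Fin.sum_univ_three, Fin.sum_univ_three, Fin.sum_univ_three]
  have a1 : (0 : Fin 3) + 1 = 1 := by decide
  have a2 : (1 : Fin 3) + 1 = 2 := by decide
  have a3 : (2 : Fin 3) + 1 = 0 := by decide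
  have b1 : (0 : Fin 3) + 2 = 2 := by decide
  have b2 : (1 : Fin 3) + 2 = 0 := by decide
  have b3 : (2 : Fin 3) + 2 = 1 := by decide
  have c1 : (0 : Fin 3) - 1 = 2 := by decide
  have c2 : (1 : Fin 3) - 1 = 0 := by decide
  have c3 : (2 : Fin 3) - 1 = 1 := by decide
  rw [a1, a2, a3, b1, b2, b3, c1, c2, c3]
  have d1 : Di G cl 1 2 0 = Di G cl 1 0 2 :=
    Finset.sum_congr rfl fun x _ => Finset.sum_congr rfl fun x' _ => mul_comm _ _
  rw [d1]
  linarith

end

end Pool.Agent.Helper33.TR
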