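import Pool.Agent.Helper33.TR.Sums

/-!
Arcs, codegrees inside a class, and the inequalities (a), (b), (e).
-/

set_option autoImplicit false
set_option linter.unusedSectionVars false
set_option linter.unusedVariables false

namespace Pool.Agent.Helper33.TR

open Finset

variable {V : Type} [Fintype V] [DecidableEq V]

section

variable {G : Finset (Finset V)} {m : ℕ} {cl : V → Fin 3} {T : Finset (Equiv.Perm V)}
  (h : Fam G m cl T)

include h

/-- arcs between two classes -/
lemma arcs (hne : Nonempty V) {i j : Fin 3} (hij : i ≠ j) :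
    (m : ℝ) ^ 3 ≤ S G cl i i j + S G cl j j i + 2 * (m : ℝ) ^ 2 := by
  have pt : ∀ τ ∈ T, ∀ x ∈ c cl i, ∀ y ∈ c cl j,
      (1 : ℝ) ≤ E G x (τ x) y + E G y (τ y) x + I (τ x) x + I (τ y) y := by
    intro τ hτ x hx y hy
    have hx := mem_c.mp hx
    have hy := mem_c.mp hy
    have e1 := E0 G x (τ x) y
    have e2 := E0 G y (τ y) x
    have i1 := I0 (τ x) x
    have i2 := I0 (τ y) y
    by_cases q1 : τ x = x
    · have := I_eq q1; linarith
    by_cases q2 : τ y = y
    · have := I_eq q2; linarith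
    have h3 : x ≠ y := by rintro rfl; exact hij (hx ▸ hy)
    have h4 : τ x ≠ y := by
      intro hh
      have := h.cls τ hτ x
      rw [hh, hx, hy] at this
      exact hij this.symm
    have := arc h hτ q1 q2 h3 h4
    linarith
  have key := Finset.sum_le_sum fun τ (hτ : τ ∈ T) => Finset.sum_le_sum
    fun x (hx : x ∈ c cl i) => Finset.sum_le_sum fun y (hy : y ∈ c cl j) => pt τ hτ x hx y hy
  simp only [Finset.sum_add_distrib] at key
  have c0 : ∑ τ ∈ T, ∑ x ∈ c cl i, ∑ y ∈ c cl j, (1 : ℝ) = (m : ℝ) ^ 3 := by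
    rw [sum_T_const h hne, sum_const_c h, sum_const_c h]; ring
  have c1 : ∑ τ ∈ T, ∑ x ∈ c cl i, ∑ y ∈ c cl j, E G x (τ x) y = S G cl i i j := by
    rw [S_eq_d, ← pairsT h i (fun x x' => d G cl j x x')]
    rfl
  have c2 : ∑ τ ∈ T, ∑ x ∈ c cl i, ∑ y ∈ c cl j, E G y (τ y) x = S G cl j j i := by
    rw [S_eq_d, ← pairsT h j (fun x x' => d G cl i x x')]
    exact Finset.sum_congr rfl fun τ _ => Finset.sum_comm
  have c3 : ∑ τ ∈ T, ∑ x ∈ c cl i, ∑ y ∈ c cl j, I (τ x) x = (m : ℝ) ^ 2 := by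
    simp_rw [sum_const_c h]
    rw [Finset.sum_comm]
    simp_rw [← Finset.mul_sum]
    rw [Finset.sum_congr rfl fun x _ => fixT h x, sum_const_c h]
    ring
  have c4 : ∑ τ ∈ T, ∑ x ∈ c cl i, ∑ y ∈ c cl j, I (τ y) y = (m : ℝ) ^ 2 := by
    have : ∑ τ ∈ T, ∑ x ∈ c cl i, ∑ y ∈ c cl j, I (τ y) y =
        ∑ τ ∈ T, ∑ y ∈ c cl j, ∑ x ∈ c cl i, I (τ y) y :=
      Finset.sum_congr rfl fun τ _ => Finset.sum_comm
    rw [this]
    simp_rw [sum_const_c h]
    rw [Finset.sum_comm]
    simp_rw [← Finset.mul_sum]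
    rw [Finset.sum_congr rfl fun x _ => fixT h x, sum_const_c h]
    ring
  rw [c0, c1, c2, c3, c4] at key
  linarith

/-- codegrees of two vertices of one class inside the class -/
lemma inner {x x' : V} (hxx : x ≠ x') (hcl : cl x = cl x') :
    (m : ℝ) ≤ 2 * d G cl (cl x) x x' + 3 := by
  have pt : ∀ τ ∈ T, (1 : ℝ) ≤ E G x x' (τ x) + E G x x' (τ x') + I (τ x) x + I (τ x') x' +
      I (τ x) x' := by
    intro τ hτ
    have ii : ∀ w, τ (τ w) = w := h.invol τ hτ
    have e1 := E0 G x x' (τ x)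
    have e2 := E0 G x x' (τ x')
    have i1 := I0 (τ x) x
    have i2 := I0 (τ x') x'
    have i3 := I0 (τ x) x'
    by_cases q1 : τ x = x
    · have := I_eq q1; linarith
    by_cases q2 : τ x' = x'
    · have := I_eq q2; linarith
    by_cases q3 : τ x = x'
    · have := I_eq q3; linarith
    have q4 : x ≠ τ x' := fun hh => q3 (by rw [hh, ii])
    have k := cov4 h hxx (Ne.symm q1) q4 (Ne.symm q3) (Ne.symm q2)
      (fun hh => hxx (τ.injective hh))
    have r1 : E G x (τ x) (τ x') = E G x x' (τ x) := by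
      rw [← Einv h hτ x (τ x) (τ x'), ii, ii, E12, E23]
    have r2 : E G x' (τ x) (τ x') = E G x x' (τ x') := by
      rw [← Einv h hτ x' (τ x) (τ x'), ii, ii, E12, E23]
    rw [r1, r2] at k
    rcases E01 G x x' (τ x) with p | p <;> rcases E01 G x x' (τ x') with q | q <;>
      rw [p, q] at k ⊢ <;> linarith
  have key := Finset.sum_le_sum pt
  simp only [Finset.sum_add_distrib] at key
  rw [sum_T_const h ⟨x⟩, sumT h x (fun w => E G x x' w), sumT h x' (fun w => E G x x' w),
    fixT h x, fixT h x', hitT h hcl, ← hcl] at key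
  have : d G cl (cl x) x x' = ∑ y' ∈ c cl (cl x), E G x x' y' := rfl
  rw [this]
  linarith

/-- (b): codegrees of pairs in two different classes -/
lemma outer {x x' y y' : V} (hxx : x ≠ x') (hyy : y ≠ y') (h1 : cl x = cl x') (h2 : cl y = cl y')
    (h12 : cl x ≠ cl y) : (m : ℝ) ≤ 2 * d G cl (cl y) x x' + 2 * d G cl (cl x) y y' := by
  have pt : ∀ τ ∈ T, (1 : ℝ) ≤ E G x x' (τ y) + E G x x' (τ y') + E G y y' (τ x) +
      E G y y' (τ x') := by
    intro τ hτ
    have ii : ∀ w, τ (τ w) = w := h.invol τ hτ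
    have hc := h.cls τ hτ
    have k := cov4 h (a := τ x) (b := τ x') (c := y) (d := y') (fun hh => hxx (τ.injective hh))
      (fun hh => h12 (by rw [← hh, hc])) (fun hh => h12 (by rw [h2, ← hh, hc]))
      (fun hh => h12 (by rw [← hh, hc, h1])) (fun hh => h12 (by rw [h2, ← hh, hc, h1])) hyy
    have r1 : E G (τ x) (τ x') y = E G x x' (τ y) := by
      rw [← Einv h hτ x x' (τ y), ii]
    have r2 : E G (τ x) (τ x') y' = E G x x' (τ y') := by
      rw [← Einv h hτ x x' (τ y'), ii]
    have r3 : E G (τ x) y y' = E G y y' (τ x) := by rw [E12, E23]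
    have r4 : E G (τ x') y y' = E G y y' (τ x') := by rw [E12, E23]
    rw [r1, r2, r3, r4] at k
    exact k
  have key := Finset.sum_le_sum pt
  simp only [Finset.sum_add_distrib] at key
  rw [sum_T_const h ⟨x⟩, sumT h y (fun w => E G x x' w), sumT h y' (fun w => E G x x' w),
    sumT h x (fun w => E G y y' w), sumT h x' (fun w => E G y y' w), ← h1, ← h2] at key
  unfold d
  linarith

end

end Pool.Agent.Helper33.TR
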