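import Pool.Agent.Helper33.TR.Count

/-!
The rotation of the classes; the lower bound.
-/

set_option autoImplicit false
set_option linter.unusedSectionVars false
set_option linter.unusedVariables false

namespace Pool.Agent.Helper33.TR

open Finset

variable {V : Type} [Fintype V] [DecidableEq V]

/-- an automorphism permuting the three classes cyclically -/
structure Rot (G : Finset (Finset V)) (cl : V → Fin 3) (g : Equiv.Perm V) : Prop where
  shift : ∀ x, cl (g x) = cl x + 1
  aut : ∀ e ∈ G, e.image g ∈ G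

section

variable {G : Finset (Finset V)} {m : ℕ} {cl : V → Fin 3} {T : Finset (Equiv.Perm V)}
  {g : Equiv.Perm V} (h : Fam G m cl T) (r : Rot G cl g)

include r in
lemma image_mem (e : Finset V) : e.image g ∈ G ↔ e ∈ G := by
  constructor
  · intro he
    have inj : Set.InjOn (fun e : Finset V => e.image g) (G : Set (Finset V)) :=
      fun a _ b _ hab => Finset.image_injective g.injective hab
    have maps : Set.MapsTo (fun e : Finset V => e.image g) (G : Set (Finset V)) G :=
      fun e he => r.aut e he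
    have surj := Finset.surjOn_of_injOn_of_card_le (s := G) (t := G)
      (fun e : Finset V => e.image g) maps inj le_rfl
    obtain ⟨e', he', hee⟩ := surj he
    have : e' = e := Finset.image_injective g.injective hee
    exact this ▸ he'
  · exact r.aut e

include r in
lemma E_g (x y z : V) : E G (g x) (g y) (g z) = E G x y z := by
  have key := image_mem r ({x, y, z} : Finset V)
  rw [Finset.image_insert, Finset.image_insert, Finset.image_singleton] at key
  unfold E
  exact if_congr key rfl rfl

include r in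
lemma d_g (j : Fin 3) (x x' : V) : d G cl (j + 1) (g x) (g x') = d G cl j x x' := by
  unfold d
  symm
  apply Finset.sum_nbij (fun y => g y)
  · intro y hy
    rw [mem_c] at hy ⊢
    rw [r.shift, hy]
  · intro x _ x' _ heq
    exact g.injective heq
  · intro y hy
    have hy := mem_c.mp (Finset.mem_coe.mp hy)
    refine ⟨g.symm y, Finset.mem_coe.mpr (mem_c.mpr ?_), by simp⟩
    have := r.shift (g.symm y)
    rw [Equiv.apply_symm_apply, hy] at this
    exact (add_right_cancel this).symm
  · intro y _
    exact (E_g r x x' y).symm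

include r in
lemma d_g' (s : Fin 3) (x x' : V) : d G cl (cl (g x) + s) (g x) (g x') = d G cl (cl x + s) x x' := by
  rw [r.shift, add_right_comm, d_g r]

include h r

/-- (b) for arbitrary classes -/
lemma outer' {s : Fin 3} (hs : s ≠ 0) {x x' y y' : V} (hxx : x ≠ x') (hyy : y ≠ y')
    (h1 : cl x = cl x') (h2 : cl y = cl y') :
    (m : ℝ) ≤ 2 * d G cl (cl x + s) x x' + 2 * d G cl (cl y + (-s)) y y' := by
  have base : ∀ y y' : V, y ≠ y' → cl y = cl y' → cl y = cl x + s →
      (m : ℝ) ≤ 2 * d G cl (cl x + s) x x' + 2 * d G cl (cl y + (-s)) y y' := by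
    intro y y' hyy h2 h3
    have := outer h hxx hyy h1 h2 (by rw [h3]; exact add_ne hs)
    rw [h3] at this ⊢
    have e : cl x + s + -s = cl x := by abel
    rw [e]
    exact this
  have three : ∀ a b : Fin 3, a = b ∨ a + 1 = b ∨ a + 1 + 1 = b := by decide
  rcases three (cl y) (cl x + s) with h3 | h3 | h3
  · exact base y y' hyy h2 h3
  · have := base (g y) (g y') (fun hh => hyy (g.injective hh)) (by rw [r.shift, r.shift, h2])
      (by rw [r.shift, h3])
    rwa [d_g' r] at this
  · have := base (g (g y)) (g (g y')) (fun hh => hyy (g.injective (g.injective hh)))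
      (by rw [r.shift, r.shift, r.shift, r.shift, h2])
      (by rw [r.shift, r.shift, h3])
    rwa [d_g' r, d_g' r] at this

lemma sum_lin (s : Fin 3) (α β γ : ℝ)
    (hle : ∀ x x', cl x = cl x' → α * d G cl (cl x + s) x x' + β * d G cl (cl x + (-s)) x x' +
      γ ≤ d G cl (cl x + s) x x' * d G cl (cl x + (-s)) x x') :
    α * B G cl s + β * B G cl (-s) + 3 * (m : ℝ) ^ 2 * γ ≤ D G cl s := by
  have c0 : 3 * (m : ℝ) ^ 2 * γ = ∑ i : Fin 3, ∑ x ∈ c cl i, ∑ x' ∈ c cl i, γ := by
    simp_rw [sum_const_c h]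
    simp only [Finset.sum_const, Finset.card_univ, Fintype.card_fin, nsmul_eq_mul]
    push_cast
    ring
  rw [c0]
  unfold B D Di
  simp_rw [S_eq_d, Finset.mul_sum]
  rw [← Finset.sum_add_distrib, ← Finset.sum_add_distrib]
  refine Finset.sum_le_sum fun i _ => ?_
  rw [← Finset.sum_add_distrib, ← Finset.sum_add_distrib]
  refine Finset.sum_le_sum fun x hx => ?_
  rw [← Finset.sum_add_distrib, ← Finset.sum_add_distrib]
  refine Finset.sum_le_sum fun x' hx' => ?_
  have hx := mem_c.mp hx
  have hx' := mem_c.mp hx'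
  have := hle x x' (hx.trans hx'.symm)
  rw [hx] at this
  rw [sub_eq_add_neg]
  exact this

/-- products of the outer codegrees -/
lemma H8 {s : Fin 3} (hs : s ≠ 0) (hm : 2 ≤ m) :
    (∃ μ : ℝ, 0 ≤ μ ∧ μ ≤ m / 2 ∧
      μ * B G cl s + (m / 2 - μ) * B G cl (-s) + 3 * (m : ℝ) ^ 2 * (-(μ * (m / 2 - μ))) ≤
        D G cl s) ∨ (m / 2 : ℝ) * B G cl s + 0 * B G cl (-s) + 3 * (m : ℝ) ^ 2 * 0 ≤ D G cl s := by
  classical
  set N : Finset (V × V) := univ.filter fun p => p.1 ≠ p.2 ∧ cl p.1 = cl p.2 with hN
  have hne : N.Nonempty := by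
    have : 1 < (c cl 0).card := by rw [card_c h]; omega
    obtain ⟨x, hx, x', hx', hxx⟩ := Finset.one_lt_card.mp this
    refine ⟨(x, x'), ?_⟩
    rw [hN, Finset.mem_filter]
    exact ⟨Finset.mem_univ _, hxx, (mem_c.mp hx).trans (mem_c.mp hx').symm⟩
  obtain ⟨q, hq, hmin⟩ := Finset.exists_min_image N
    (fun p : V × V => d G cl (cl p.1 + (-s)) p.1 p.2) hne
  rw [hN, Finset.mem_filter] at hq
  obtain ⟨-, hq1, hq2⟩ := hq
  set μ := d G cl (cl q.1 + (-s)) q.1 q.2 with hμ
  have hlo : ∀ x x', x ≠ x' → cl x = cl x' → μ ≤ d G cl (cl x + (-s)) x x' := by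
    intro x x' hxx hcl
    have := hmin (x, x') (by rw [hN, Finset.mem_filter]; exact ⟨Finset.mem_univ _, hxx, hcl⟩)
    exact this
  have hhi : ∀ x x', x ≠ x' → cl x = cl x' → (m : ℝ) / 2 - μ ≤ d G cl (cl x + s) x x' := by
    intro x x' hxx hcl
    have := outer' h r hs hxx hq1 hcl hq2
    linarith
  have hμ0 : 0 ≤ μ := d_nonneg _ _ _
  rcases le_or_gt μ (m / 2) with hcase | hcase
  · left
    refine ⟨μ, hμ0, hcase, ?_⟩
    apply sum_lin h r
    intro x x' hcl
    by_cases hxx : x = x'
    · subst hxx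
      rw [d_self h, d_self h]
      have : 0 ≤ μ * (m / 2 - μ) := mul_nonneg hμ0 (by linarith)
      linarith
    · have h1 := hlo x x' hxx hcl
      have h2 := hhi x x' hxx hcl
      nlinarith [mul_nonneg (sub_nonneg.mpr h1) (sub_nonneg.mpr h2)]
  · right
    apply sum_lin h r
    intro x x' hcl
    by_cases hxx : x = x'
    · subst hxx
      rw [d_self h, d_self h]
      simp
    · have h1 := hlo x x' hxx hcl
      have h2 := d_nonneg (G := G) (cl := cl) (cl x + s) x x'
      nlinarith

end

end Pool.Agent.Helper33.TR
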