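import Pool.Agent.Helper33.TR.Core

/-!
Summation of the local inequalities.
-/

set_option autoImplicit false
set_option linter.unusedSectionVars false

namespace Pool.Agent.Helper33.TR

open Finset

variable {V : Type} [Fintype V] [DecidableEq V]

/-- number of edges through `x`, `x'` with the third vertex in class `j` -/
noncomputable def d (G : Finset (Finset V)) (cl : V → Fin 3) (j : Fin 3) (x x' : V) : ℝ :=
  ∑ y ∈ c cl j, E G x x' y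

/-- ordered edges of a type -/
noncomputable def S (G : Finset (Finset V)) (cl : V → Fin 3) (i j k : Fin 3) : ℝ :=
  ∑ x ∈ c cl i, ∑ y ∈ c cl j, ∑ z ∈ c cl k, E G x y z

/-- products of missing degrees -/
noncomputable def P (G : Finset (Finset V)) (cl : V → Fin 3) (m : ℕ) (i j k : Fin 3) : ℝ :=
  ∑ x ∈ c cl i, ∑ x' ∈ c cl i, (m - d G cl j x x') * (m - d G cl k x x')

section

variable {G : Finset (Finset V)} {m : ℕ} {cl : V → Fin 3} {T : Finset (Equiv.Perm V)}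

lemma d_comm (j : Fin 3) (x x' : V) : d G cl j x x' = d G cl j x' x :=
  Finset.sum_congr rfl fun y _ => E12 _ _ _ _

lemma d_nonneg (j : Fin 3) (x x' : V) : 0 ≤ d G cl j x x' :=
  Finset.sum_nonneg fun y _ => E0 _ _ _ _

lemma S12 (i j k : Fin 3) : S G cl i j k = S G cl j i k := by
  unfold S
  rw [Finset.sum_comm]
  exact Finset.sum_congr rfl fun x _ => Finset.sum_congr rfl fun y _ =>
    Finset.sum_congr rfl fun z _ => E12 _ _ _ _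

lemma S23 (i j k : Fin 3) : S G cl i j k = S G cl i k j := by
  unfold S
  refine Finset.sum_congr rfl fun x _ => ?_
  rw [Finset.sum_comm]
  exact Finset.sum_congr rfl fun y _ => Finset.sum_congr rfl fun z _ => E23 _ _ _ _

lemma S_eq_d (i j : Fin 3) : S G cl i i j = ∑ x ∈ c cl i, ∑ x' ∈ c cl i, d G cl j x x' := rfl

lemma rot3 {α β γ : Type} (s : Finset α) (t : Finset β) (u : Finset γ) (f : α → β → γ → ℝ) :
    ∑ x ∈ s, ∑ y ∈ t, ∑ z ∈ u, f x y z = ∑ z ∈ u, ∑ x ∈ s, ∑ y ∈ t, f x y z := by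
  have : ∀ x ∈ s, ∑ y ∈ t, ∑ z ∈ u, f x y z = ∑ z ∈ u, ∑ y ∈ t, f x y z :=
    fun x _ => Finset.sum_comm
  rw [Finset.sum_congr rfl this, Finset.sum_comm]

lemma lin4 {α β : Type} (t : Finset α) (A B C : Finset β)
    (f1 f2 f3 f4 f5 f6 f7 g1 g2 g3 g4 g5 g6 g7 g8 g9 : α → β → β → β → ℝ)
    (hle : ∀ a ∈ t, ∀ x y z, 2 * (f1 a x y z + f2 a x y z + f3 a x y z) ≤
      f4 a x y z + f5 a x y z + f6 a x y z + f7 a x y z + 6 * (g1 a x y z + g2 a x y z +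
        g3 a x y z + g4 a x y z + g5 a x y z + g6 a x y z + g7 a x y z + g8 a x y z +
        g9 a x y z)) :
    2 * (∑ a ∈ t, ∑ x ∈ A, ∑ y ∈ B, ∑ z ∈ C, f1 a x y z +
      ∑ a ∈ t, ∑ x ∈ A, ∑ y ∈ B, ∑ z ∈ C, f2 a x y z +
      ∑ a ∈ t, ∑ x ∈ A, ∑ y ∈ B, ∑ z ∈ C, f3 a x y z) ≤
      ∑ a ∈ t, ∑ x ∈ A, ∑ y ∈ B, ∑ z ∈ C, f4 a x y z +
      ∑ a ∈ t, ∑ x ∈ A, ∑ y ∈ B, ∑ z ∈ C, f5 a x y z +
      ∑ a ∈ t, ∑ x ∈ A, ∑ y ∈ B, ∑ z ∈ C, f6 a x y z +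
      ∑ a ∈ t, ∑ x ∈ A, ∑ y ∈ B, ∑ z ∈ C, f7 a x y z +
      6 * (∑ a ∈ t, ∑ x ∈ A, ∑ y ∈ B, ∑ z ∈ C, g1 a x y z +
      ∑ a ∈ t, ∑ x ∈ A, ∑ y ∈ B, ∑ z ∈ C, g2 a x y z +
      ∑ a ∈ t, ∑ x ∈ A, ∑ y ∈ B, ∑ z ∈ C, g3 a x y z +
      ∑ a ∈ t, ∑ x ∈ A, ∑ y ∈ B, ∑ z ∈ C, g4 a x y z +
      ∑ a ∈ t, ∑ x ∈ A, ∑ y ∈ B, ∑ z ∈ C, g5 a x y z +
      ∑ a ∈ t, ∑ x ∈ A, ∑ y ∈ B, ∑ z ∈ C, g6 a x y z +
      ∑ a ∈ t, ∑ x ∈ A, ∑ y ∈ B, ∑ z ∈ C, g7 a x y z +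
      ∑ a ∈ t, ∑ x ∈ A, ∑ y ∈ B, ∑ z ∈ C, g8 a x y z +
      ∑ a ∈ t, ∑ x ∈ A, ∑ y ∈ B, ∑ z ∈ C, g9 a x y z) := by
  have key := Finset.sum_le_sum fun a (ha : a ∈ t) => Finset.sum_le_sum
    fun x (_ : x ∈ A) => Finset.sum_le_sum fun y (_ : y ∈ B) =>
      Finset.sum_le_sum fun z (_ : z ∈ C) => hle a ha x y z
  simpa only [← Finset.mul_sum, Finset.sum_add_distrib] using key

variable (h : Fam G m cl T)

include h

lemma d_self (j : Fin 3) (x : V) : d G cl j x x = 0 :=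
  Finset.sum_eq_zero fun y _ => Exx h x y

lemma d_le (j : Fin 3) (x x' : V) : d G cl j x x' ≤ m := by
  unfold d
  calc _ ≤ ∑ _y ∈ c cl j, (1 : ℝ) := Finset.sum_le_sum fun y _ => E1 _ _ _ _
    _ = m := by rw [sum_const_c h, mul_one]

lemma miss (j : Fin 3) (x x' : V) : ∑ y ∈ c cl j, (1 - E G x x' y) = m - d G cl j x x' := by
  rw [Finset.sum_sub_distrib, sum_const_c h, mul_one]
  rfl

lemma miss2 (j k : Fin 3) (x x' : V) : ∑ y ∈ c cl j, ∑ z ∈ c cl k,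
    (1 - E G x x' y) * (1 - E G x x' z) = (m - d G cl j x x') * (m - d G cl k x x') := by
  rw [← Finset.sum_mul_sum, miss h, miss h]

lemma T1 (i j k : Fin 3) : ∑ τ ∈ T, ∑ x ∈ c cl i, ∑ y ∈ c cl j, ∑ z ∈ c cl k,
    (1 - E G x (τ x) y) * (1 - E G x (τ x) z) = P G cl m i j k := by
  unfold P
  rw [← pairsT h i (fun x x' => (m - d G cl j x x') * (m - d G cl k x x'))]
  exact Finset.sum_congr rfl fun τ _ => Finset.sum_congr rfl fun x _ => miss2 h j k x (τ x)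

lemma T2 (i j k : Fin 3) : ∑ τ ∈ T, ∑ x ∈ c cl i, ∑ y ∈ c cl j, ∑ z ∈ c cl k,
    (1 - E G y (τ y) x) * (1 - E G y (τ y) z) = P G cl m j i k := by
  rw [← T1 h j i k]
  exact Finset.sum_congr rfl fun τ _ => Finset.sum_comm

lemma T3 (i j k : Fin 3) : ∑ τ ∈ T, ∑ x ∈ c cl i, ∑ y ∈ c cl j, ∑ z ∈ c cl k,
    (1 - E G z (τ z) x) * (1 - E G z (τ z) y) = P G cl m k i j := by
  rw [← T1 h k i j]
  exact Finset.sum_congr rfl fun τ _ => rot3 _ _ _ _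

lemma sum_T_const (hne : Nonempty V) (a : ℝ) : ∑ _τ ∈ T, a = m * a := by
  rw [Finset.sum_const, nsmul_eq_mul, cardT h hne]

lemma U0 (hne : Nonempty V) (i j k : Fin 3) : ∑ τ ∈ T, ∑ x ∈ c cl i, ∑ y ∈ c cl j,
    ∑ z ∈ c cl k, E G x y z = m * S G cl i j k := by
  rw [sum_T_const h hne]; rfl

lemma U1 (hne : Nonempty V) (i j k : Fin 3) : ∑ τ ∈ T, ∑ x ∈ c cl i, ∑ y ∈ c cl j,
    ∑ z ∈ c cl k, E G (τ x) y z = m * S G cl i j k := by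
  rw [← U0 h hne]
  exact Finset.sum_congr rfl fun τ hτ =>
    sumτ h hτ i (fun w => ∑ y ∈ c cl j, ∑ z ∈ c cl k, E G w y z)

lemma U2 (hne : Nonempty V) (i j k : Fin 3) : ∑ τ ∈ T, ∑ x ∈ c cl i, ∑ y ∈ c cl j,
    ∑ z ∈ c cl k, E G x (τ y) z = m * S G cl i j k := by
  rw [← U0 h hne]
  exact Finset.sum_congr rfl fun τ hτ => Finset.sum_congr rfl fun x _ =>
    sumτ h hτ j (fun w => ∑ z ∈ c cl k, E G x w z)

lemma U3 (hne : Nonempty V) (i j k : Fin 3) : ∑ τ ∈ T, ∑ x ∈ c cl i, ∑ y ∈ c cl j,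
    ∑ z ∈ c cl k, E G x y (τ z) = m * S G cl i j k := by
  rw [← U0 h hne]
  exact Finset.sum_congr rfl fun τ hτ => Finset.sum_congr rfl fun x _ =>
    Finset.sum_congr rfl fun y _ => sumτ h hτ k (fun w => E G x y w)

/-- equality of two variables costs at most `m ^ 3` -/
lemma W1 (i j k : Fin 3) : ∑ τ ∈ T, ∑ x ∈ c cl i, ∑ y ∈ c cl j, ∑ z ∈ c cl k, I (τ x) x
    = (m : ℝ) ^ 3 := by
  have e : ∀ τ : Equiv.Perm V, ∀ x, ∑ y ∈ c cl j, ∑ z ∈ c cl k, I (τ x) x =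
      (m : ℝ) ^ 2 * I (τ x) x := by
    intro τ x
    rw [sum_const_c h, sum_const_c h]; ring
  simp_rw [e]
  rw [Finset.sum_comm]
  simp_rw [← Finset.mul_sum]
  rw [Finset.sum_congr rfl fun x _ => fixT h x, sum_const_c h]
  ring

lemma hit_le (i : Fin 3) (y : V) : ∑ x ∈ c cl i, I x y ≤ 1 := by
  unfold I
  rw [Finset.sum_ite_eq' (c cl i) y (fun _ => (1 : ℝ))]
  split_ifs <;> norm_num

lemma hit_le' {τ : Equiv.Perm V} (hτ : τ ∈ T) (i : Fin 3) (y : V) :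
    ∑ x ∈ c cl i, I (τ x) y ≤ 1 := by
  rw [sumτ h hτ i (fun w => I w y)]
  exact hit_le h i y

lemma W2 (hne : Nonempty V) (i j k : Fin 3) : ∑ τ ∈ T, ∑ x ∈ c cl i, ∑ y ∈ c cl j,
    ∑ z ∈ c cl k, I x y ≤ (m : ℝ) ^ 3 := by
  have e : ∀ x y : V, ∑ z ∈ c cl k, I x y = m * I x y := fun x y => sum_const_c h _ _
  simp_rw [e]
  rw [sum_T_const h hne, Finset.sum_comm]
  simp_rw [← Finset.mul_sum]
  have : ∑ y ∈ c cl j, ∑ x ∈ c cl i, I x y ≤ ∑ _y ∈ c cl j, (1 : ℝ) :=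
    Finset.sum_le_sum fun y _ => hit_le h i y
  rw [sum_const_c h] at this
  have hm : (0 : ℝ) ≤ m := Nat.cast_nonneg m
  calc (m : ℝ) * (m * ∑ y ∈ c cl j, ∑ x ∈ c cl i, I x y) ≤ m * (m * (m * 1)) := by
        gcongr
    _ = (m : ℝ) ^ 3 := by ring

lemma W3 (hne : Nonempty V) (i j k : Fin 3) : ∑ τ ∈ T, ∑ x ∈ c cl i, ∑ y ∈ c cl j,
    ∑ z ∈ c cl k, I (τ x) y ≤ (m : ℝ) ^ 3 := by
  refine le_trans (le_of_eq ?_) (W2 h hne i j k)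
  exact Finset.sum_congr rfl fun τ hτ =>
    sumτ h hτ i (fun w => ∑ y ∈ c cl j, ∑ z ∈ c cl k, I w y)

/-- the basic inequality -/
lemma ineq3 (hne : Nonempty V) (i j k : Fin 3) :
    2 * (P G cl m i j k + P G cl m j i k + P G cl m k i j) ≤
      4 * (m * S G cl i j k) + 54 * (m : ℝ) ^ 3 := by
  have key := lin4 T (c cl i) (c cl j) (c cl k)
    (fun τ x y z => (1 - E G x (τ x) y) * (1 - E G x (τ x) z))
    (fun τ x y z => (1 - E G y (τ y) x) * (1 - E G y (τ y) z))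
    (fun τ x y z => (1 - E G z (τ z) x) * (1 - E G z (τ z) y))
    (fun _ x y z => E G x y z) (fun τ x y z => E G (τ x) y z)
    (fun τ x y z => E G x (τ y) z) (fun τ x y z => E G x y (τ z))
    (fun τ x _ _ => I (τ x) x) (fun τ _ y _ => I (τ y) y) (fun τ _ _ z => I (τ z) z)
    (fun _ x y _ => I x y) (fun τ x y _ => I (τ x) y)
    (fun _ x _ z => I x z) (fun τ x _ z => I (τ x) z)
    (fun _ _ y z => I y z) (fun τ _ y z => I (τ y) z)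
    (fun τ hτ x y z => local3' h hτ x y z)
  rw [T1 h, T2 h, T3 h, U0 h hne, U1 h hne, U2 h hne, U3 h hne] at key
  have w1 := W1 h i j k
  have w2 : ∑ τ ∈ T, ∑ x ∈ c cl i, ∑ y ∈ c cl j, ∑ z ∈ c cl k, I (τ y) y = (m : ℝ) ^ 3 := by
    rw [← W1 h j i k]
    exact Finset.sum_congr rfl fun τ _ => Finset.sum_comm
  have w3 : ∑ τ ∈ T, ∑ x ∈ c cl i, ∑ y ∈ c cl j, ∑ z ∈ c cl k, I (τ z) z = (m : ℝ) ^ 3 := by
    rw [← W1 h k i j]
    exact Finset.sum_congr rfl fun τ _ => rot3 _ _ _ _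
  have w4 := W2 h hne i j k
  have w5 := W3 h hne i j k
  have w6 : ∑ τ ∈ T, ∑ x ∈ c cl i, ∑ y ∈ c cl j, ∑ z ∈ c cl k, I x z ≤ (m : ℝ) ^ 3 := by
    refine le_trans (le_of_eq ?_) (W2 h hne i k j)
    exact Finset.sum_congr rfl fun τ _ => Finset.sum_congr rfl fun x _ => Finset.sum_comm
  have w7 : ∑ τ ∈ T, ∑ x ∈ c cl i, ∑ y ∈ c cl j, ∑ z ∈ c cl k, I (τ x) z ≤ (m : ℝ) ^ 3 := by
    refine le_trans (le_of_eq ?_) (W3 h hne i k j)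
    exact Finset.sum_congr rfl fun τ _ => Finset.sum_congr rfl fun x _ => Finset.sum_comm
  have w8 : ∑ τ ∈ T, ∑ x ∈ c cl i, ∑ y ∈ c cl j, ∑ z ∈ c cl k, I y z ≤ (m : ℝ) ^ 3 := by
    refine le_trans (le_of_eq ?_) (W2 h hne j k i)
    exact Finset.sum_congr rfl fun τ _ => (rot3 _ _ _ _).symm
  have w9 : ∑ τ ∈ T, ∑ x ∈ c cl i, ∑ y ∈ c cl j, ∑ z ∈ c cl k, I (τ y) z ≤ (m : ℝ) ^ 3 := by
    refine le_trans (le_of_eq ?_) (W3 h hne j k i)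
    exact Finset.sum_congr rfl fun τ _ => (rot3 _ _ _ _).symm
  linarith

end

end Pool.Agent.Helper33.TR
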