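import Pool.Agent.Helper33.TR.More

/-!
Totals over the three classes.
-/

set_option autoImplicit false
set_option linter.unusedSectionVars false
set_option linter.unusedVariables false

namespace Pool.Agent.Helper33.TR

open Finset

variable {V : Type} [Fintype V] [DecidableEq V]

/-- edges with two vertices in a class and one in the class shifted by `s` (ordered, one third) -/
noncomputable def B (G : Finset (Finset V)) (cl : V → Fin 3) (s : Fin 3) : ℝ :=
  ∑ i : Fin 3, S G cl i i (i + s)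

/-- missing triples inside class `i` -/
noncomputable def Ki (G : Finset (Finset V)) (cl : V → Fin 3) (m : ℕ) (i : Fin 3) : ℝ :=
  ∑ x ∈ c cl i, ∑ x' ∈ c cl i, ((m : ℝ) - d G cl i x x')

/-- missing triples inside the classes -/
noncomputable def K (G : Finset (Finset V)) (cl : V → Fin 3) (m : ℕ) : ℝ :=
  ∑ i : Fin 3, Ki G cl m i

/-- weighted missing triples -/
noncomputable def W (G : Finset (Finset V)) (cl : V → Fin 3) (m : ℕ) (i j : Fin 3) : ℝ :=
  ∑ x ∈ c cl i, ∑ x' ∈ c cl i, ((m : ℝ) - d G cl i x x') * d G cl j x x'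

/-- squares of missing codegrees -/
noncomputable def Q (G : Finset (Finset V)) (cl : V → Fin 3) (m : ℕ) (s : Fin 3) : ℝ :=
  ∑ i : Fin 3, P G cl m i (i + s) (i + s)

/-- products of the two outer codegrees -/
noncomputable def Di (G : Finset (Finset V)) (cl : V → Fin 3) (i j k : Fin 3) : ℝ :=
  ∑ x ∈ c cl i, ∑ x' ∈ c cl i, d G cl j x x' * d G cl k x x'

/-- products of the two outer codegrees -/
noncomputable def D (G : Finset (Finset V)) (cl : V → Fin 3) (s : Fin 3) : ℝ :=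
  ∑ i : Fin 3, Di G cl i (i + s) (i - s)

lemma lin4e {β : Type} (A B C D : Finset β)
    (f1 f2 f3 f4 g1 g2 g3 : β → β → β → β → ℝ)
    (hle : ∀ a ∈ A, ∀ x ∈ B, ∀ y ∈ C, ∀ z ∈ D, f1 a x y z ≤ f2 a x y z + f3 a x y z + f4 a x y z +
      g1 a x y z + g2 a x y z + g3 a x y z) :
    ∑ a ∈ A, ∑ x ∈ B, ∑ y ∈ C, ∑ z ∈ D, f1 a x y z ≤
      ∑ a ∈ A, ∑ x ∈ B, ∑ y ∈ C, ∑ z ∈ D, f2 a x y z +
      ∑ a ∈ A, ∑ x ∈ B, ∑ y ∈ C, ∑ z ∈ D, f3 a x y z +
      ∑ a ∈ A, ∑ x ∈ B, ∑ y ∈ C, ∑ z ∈ D, f4 a x y z +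
      ∑ a ∈ A, ∑ x ∈ B, ∑ y ∈ C, ∑ z ∈ D, g1 a x y z +
      ∑ a ∈ A, ∑ x ∈ B, ∑ y ∈ C, ∑ z ∈ D, g2 a x y z +
      ∑ a ∈ A, ∑ x ∈ B, ∑ y ∈ C, ∑ z ∈ D, g3 a x y z := by
  have key := Finset.sum_le_sum fun a (ha : a ∈ A) => Finset.sum_le_sum
    fun x (hx : x ∈ B) => Finset.sum_le_sum fun y (hy : y ∈ C) =>
      Finset.sum_le_sum fun z (hz : z ∈ D) => hle a ha x hx y hy z hz
  simpa only [Finset.sum_add_distrib] using key

section

variable {G : Finset (Finset V)} {m : ℕ} {cl : V → Fin 3} {T : Finset (Equiv.Perm V)}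
  (h : Fam G m cl T)

include h

lemma P_inner (i j : Fin 3) : P G cl m i i j = m * Ki G cl m i - W G cl m i j := by
  unfold P Ki W
  simp_rw [Finset.mul_sum]
  rw [← Finset.sum_sub_distrib]
  refine Finset.sum_congr rfl fun x _ => ?_
  rw [← Finset.sum_sub_distrib]
  exact Finset.sum_congr rfl fun x' _ => by ring

lemma P_outer (i j k : Fin 3) : P G cl m i j k =
    (m : ℝ) ^ 4 - m * (S G cl i i j + S G cl i i k) + Di G cl i j k := by
  rw [S_eq_d, S_eq_d]
  have c0 : (m : ℝ) ^ 4 = ∑ x ∈ c cl i, ∑ x' ∈ c cl i, (m : ℝ) ^ 2 := by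
    rw [sum_const_c h, sum_const_c h]; ring
  unfold P Di
  rw [c0, ← Finset.sum_add_distrib, Finset.mul_sum, ← Finset.sum_sub_distrib,
    ← Finset.sum_add_distrib]
  refine Finset.sum_congr rfl fun x _ => ?_
  rw [← Finset.sum_add_distrib, Finset.mul_sum, ← Finset.sum_sub_distrib,
    ← Finset.sum_add_distrib]
  exact Finset.sum_congr rfl fun x' _ => by ring

lemma Ki_eq (i : Fin 3) : Ki G cl m i = (m : ℝ) ^ 3 - S G cl i i i := by
  unfold Ki
  rw [S_eq_d]
  have c0 : (m : ℝ) ^ 3 = ∑ x ∈ c cl i, ∑ x' ∈ c cl i, (m : ℝ) := by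
    rw [sum_const_c h, sum_const_c h]; ring
  rw [c0, ← Finset.sum_sub_distrib]
  refine Finset.sum_congr rfl fun x _ => ?_
  rw [← Finset.sum_sub_distrib]

/-- half of the inner triples at least -/
lemma b_le {i : Fin 3} {x x' : V} (hx : x ∈ c cl i) (hx' : x' ∈ c cl i) (hxx : x ≠ x') :
    (m : ℝ) - d G cl i x x' ≤ (m + 3) / 2 := by
  have hx := mem_c.mp hx
  have hx' := mem_c.mp hx'
  have := inner h hxx (hx.trans hx'.symm)
  rw [hx] at this
  linarith

lemma W_le (i j : Fin 3) : W G cl m i j ≤ ((m : ℝ) + 3) / 2 * S G cl i i j := by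
  unfold W
  rw [S_eq_d, Finset.mul_sum]
  refine Finset.sum_le_sum fun x hx => ?_
  rw [Finset.mul_sum]
  refine Finset.sum_le_sum fun x' hx' => ?_
  by_cases hxx : x = x'
  · subst hxx
    rw [d_self h j]; simp
  · exact mul_le_mul_of_nonneg_right (b_le h hx hx' hxx) (d_nonneg j x x')

lemma K5i (i : Fin 3) : 2 * Ki G cl m i ≤ (m : ℝ) ^ 3 + 5 * (m : ℝ) ^ 2 := by
  have hm : (0 : ℝ) ≤ m := Nat.cast_nonneg m
  have pt : ∀ x ∈ c cl i, ∀ x' ∈ c cl i,
      (m : ℝ) - d G cl i x x' ≤ (m + 3) / 2 + m * I x x' := by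
    intro x hx x' hx'
    by_cases hxx : x = x'
    · rw [I_eq hxx]
      have := d_nonneg (G := G) (cl := cl) i x x'
      linarith
    · have := b_le h hx hx' hxx
      have := mul_nonneg hm (I0 x x')
      linarith
  have key := Finset.sum_le_sum fun x (hx : x ∈ c cl i) => Finset.sum_le_sum
    fun x' (hx' : x' ∈ c cl i) => pt x hx x' hx'
  simp only [Finset.sum_add_distrib] at key
  rw [sum_const_c h, sum_const_c h] at key
  have l1 : ∑ x ∈ c cl i, ∑ x' ∈ c cl i, (m : ℝ) * I x x' ≤ (m : ℝ) ^ 2 := by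
    rw [Finset.sum_comm]
    calc _ ≤ ∑ _x' ∈ c cl i, (m : ℝ) := by
          refine Finset.sum_le_sum fun x' _ => ?_
          rw [← Finset.mul_sum]
          have := mul_le_mul_of_nonneg_left (hit_le h i x') hm
          linarith
      _ = (m : ℝ) ^ 2 := by rw [sum_const_c h]; ring
  unfold Ki
  nlinarith

lemma e_ineq {i j : Fin 3} (hij : i ≠ j) :
    (m : ℝ) * Ki G cl m i ≤ 3 * W G cl m i j + 3 * (m : ℝ) ^ 3 := by
  have pt : ∀ x ∈ c cl i, ∀ x' ∈ c cl i, ∀ x'' ∈ c cl i, ∀ y ∈ c cl j,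
      (1 - E G x x' x'') ≤ (1 - E G x x' x'') * E G x x' y + (1 - E G x x' x'') * E G x x'' y +
        (1 - E G x x' x'') * E G x' x'' y + I x x' + I x x'' + I x' x'' := by
    intro x hx x' hx' x'' hx'' y hy
    have hx := mem_c.mp hx
    have hx' := mem_c.mp hx'
    have hx'' := mem_c.mp hx''
    have hy := mem_c.mp hy
    have e1 := E0 G x x' y
    have e2 := E0 G x x'' y
    have e3 := E0 G x' x'' y
    have i1 := I0 x x'
    have i2 := I0 x x''
    have i3 := I0 x' x''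
    rcases E01 G x x' x'' with p | p
    · rw [p]
      by_cases q1 : x = x'
      · have := I_eq q1; linarith
      by_cases q2 : x = x''
      · have := I_eq q2; linarith
      by_cases q3 : x' = x''
      · have := I_eq q3; linarith
      have n1 : x ≠ y := by rintro rfl; exact hij (hx ▸ hy)
      have n2 : x' ≠ y := by rintro rfl; exact hij (hx' ▸ hy)
      have n3 : x'' ≠ y := by rintro rfl; exact hij (hx'' ▸ hy)
      have k := cov4 h q1 q2 n1 q3 n2 n3
      rw [p] at k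
      linarith
    · rw [p]; linarith
  have key := lin4e (c cl i) (c cl i) (c cl i) (c cl j)
    (fun x x' x'' y => 1 - E G x x' x'') (fun x x' x'' y => (1 - E G x x' x'') * E G x x' y)
    (fun x x' x'' y => (1 - E G x x' x'') * E G x x'' y)
    (fun x x' x'' y => (1 - E G x x' x'') * E G x' x'' y)
    (fun x x' x'' y => I x x') (fun x x' x'' y => I x x'') (fun x x' x'' y => I x' x'') pt
  have l0 : ∑ x ∈ c cl i, ∑ x' ∈ c cl i, ∑ x'' ∈ c cl i, ∑ y ∈ c cl j, (1 - E G x x' x'') =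
      m * Ki G cl m i := by
    unfold Ki
    simp_rw [Finset.mul_sum, sum_const_c h, ← Finset.mul_sum, miss h]
  have l1 : ∑ x ∈ c cl i, ∑ x' ∈ c cl i, ∑ x'' ∈ c cl i, ∑ y ∈ c cl j,
      (1 - E G x x' x'') * E G x x' y = W G cl m i j := by
    unfold W
    refine Finset.sum_congr rfl fun x _ => Finset.sum_congr rfl fun x' _ => ?_
    rw [← Finset.sum_mul_sum, miss h]
    rfl
  have l2 : ∑ x ∈ c cl i, ∑ x' ∈ c cl i, ∑ x'' ∈ c cl i, ∑ y ∈ c cl j,
      (1 - E G x x' x'') * E G x x'' y = W G cl m i j := by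
    rw [← l1]
    refine Finset.sum_congr rfl fun x _ => ?_
    rw [Finset.sum_comm]
    refine Finset.sum_congr rfl fun x'' _ => Finset.sum_congr rfl fun x' _ =>
      Finset.sum_congr rfl fun y _ => ?_
    rw [E23 G x x'' x']
  have l3 : ∑ x ∈ c cl i, ∑ x' ∈ c cl i, ∑ x'' ∈ c cl i, ∑ y ∈ c cl j,
      (1 - E G x x' x'') * E G x' x'' y = W G cl m i j := by
    rw [← l2, Finset.sum_comm]
    refine Finset.sum_congr rfl fun x' _ => Finset.sum_congr rfl fun x _ =>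
      Finset.sum_congr rfl fun x'' _ => Finset.sum_congr rfl fun y _ => ?_
    rw [E12 G x x' x'']
  have g1 : ∑ x ∈ c cl i, ∑ x' ∈ c cl i, ∑ x'' ∈ c cl i, ∑ y ∈ c cl j, I x x' ≤
      (m : ℝ) ^ 3 := by
    simp_rw [sum_const_c h]
    rw [Finset.sum_comm]
    simp_rw [← Finset.mul_sum]
    have : ∑ x' ∈ c cl i, ∑ x ∈ c cl i, I x x' ≤ ∑ _x' ∈ c cl i, (1 : ℝ) :=
      Finset.sum_le_sum fun y _ => hit_le h i y
    rw [sum_const_c h] at this
    have hm : (0 : ℝ) ≤ m := Nat.cast_nonneg m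
    calc (m : ℝ) * (m * ∑ y ∈ c cl i, ∑ x ∈ c cl i, I x y) ≤ m * (m * (m * 1)) := by
          gcongr
      _ = (m : ℝ) ^ 3 := by ring
  have g2 : ∑ x ∈ c cl i, ∑ x' ∈ c cl i, ∑ x'' ∈ c cl i, ∑ y ∈ c cl j, I x x'' ≤
      (m : ℝ) ^ 3 := by
    refine le_trans (le_of_eq ?_) g1
    exact Finset.sum_congr rfl fun x _ => Finset.sum_comm
  have g3 : ∑ x ∈ c cl i, ∑ x' ∈ c cl i, ∑ x'' ∈ c cl i, ∑ y ∈ c cl j, I x' x'' ≤
      (m : ℝ) ^ 3 := by
    refine le_trans (le_of_eq ?_) g2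
    exact Finset.sum_comm
  rw [l0, l1, l2, l3] at key
  linarith

end

end Pool.Agent.Helper33.TR
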